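import Pool.Agent.N88.WV.Target

/-!
# Families `z_n` whose products `z_n z_{p-n}` span finite-dimensional spaces
-/

set_option autoImplicit false

namespace Pool.Agent.N88.WV

open Finsupp MvPolynomial

noncomputable section

variable {F : Type} [Field F] [CharZero F] {m : ℕ}

/-- The symbol of an element of `Ã_{m+1}`. -/
def sy (Z : Atilde F m) : Sy F (Option (Fin m)) := (exists_hasSym Z).choose

omit [CharZero F] in
lemma sy_spec (Z : Atilde F m) : HasSym (Z : Module.End F (PolySp F m)) (sy Z) :=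
  (exists_hasSym Z).choose_spec

omit [CharZero F] in
lemma sy_ne_zero {Z : Atilde F m} (hZ : Z ≠ 0) : sy Z ≠ 0 := by
  intro h
  apply hZ
  apply Subtype.ext
  have h1 := sy_spec Z
  rw [h] at h1
  exact h1.eq_zero

lemma sy_add (Z W : Atilde F m) : sy (Z + W) = sy Z + sy W :=
  (sy_spec (Z + W)).unique ((sy_spec Z).add (sy_spec W))

lemma sy_smul (c : F) (Z : Atilde F m) : sy (c • Z) = c • sy Z :=
  (sy_spec (c • Z)).unique ((sy_spec Z).smul c)

lemma sy_mul (Z W : Atilde F m) : sy (Z * W) = star (sy Z) (sy W) :=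
  (sy_spec (Z * W)).unique ((sy_spec Z).mul (sy_spec W))

lemma sy_zero : sy (0 : Atilde F m) = 0 := hasSym_zero (sy_spec 0)

/-- `sy` as a linear map. -/
def syL : Atilde F m →ₗ[F] Sy F (Option (Fin m)) where
  toFun := sy
  map_add' := sy_add
  map_smul' := sy_smul

/-- Symbols with all shifts and degrees bounded by `B`. -/
def Bd (B : ℤ) (q : Sy F (Option (Fin m))) : Prop :=
  ∀ γ, q γ ≠ 0 → ((q γ).totalDegree : ℤ) ≤ B ∧ ∀ i, |γ i| ≤ B

omit [CharZero F] in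
lemma exists_Bd (q : Sy F (Option (Fin m))) : ∃ B : ℤ, 0 ≤ B ∧ Bd B q := by
  classical
  refine ⟨∑ γ ∈ q.support, (((q γ).totalDegree : ℤ) + ∑ i, |γ i|), ?_, ?_⟩
  · apply Finset.sum_nonneg
    intro γ _
    have : 0 ≤ ∑ i, |γ i| := Finset.sum_nonneg fun i _ => abs_nonneg _
    positivity
  · intro γ hγ
    have h1 : ((q γ).totalDegree : ℤ) + ∑ i, |γ i| ≤
        ∑ γ ∈ q.support, (((q γ).totalDegree : ℤ) + ∑ i, |γ i|) := by
      apply Finset.single_le_sum (f := fun γ => (((q γ).totalDegree : ℤ) + ∑ i, |γ i|))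
      · intro δ _
        have : 0 ≤ ∑ i, |δ i| := Finset.sum_nonneg fun i _ => abs_nonneg _
        positivity
      · exact Finsupp.mem_support_iff.mpr hγ
    have h2 : 0 ≤ ∑ i, |γ i| := Finset.sum_nonneg fun i _ => abs_nonneg _
    refine ⟨by linarith, ?_⟩
    intro i
    have h3 : |γ i| ≤ ∑ i, |γ i| :=
      Finset.single_le_sum (f := fun i => |γ i|) (fun i _ => abs_nonneg _) (Finset.mem_univ i)
    have h4 : (0 : ℤ) ≤ ((q γ).totalDegree : ℤ) := by positivity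
    linarith

omit [CharZero F] in
lemma Bd.mono {B B' : ℤ} {q : Sy F (Option (Fin m))} (h : Bd B q) (hB : B ≤ B') : Bd B' q := by
  intro γ hγ
  exact ⟨(h γ hγ).1.trans hB, fun i => ((h γ hγ).2 i).trans hB⟩

omit [CharZero F] in
lemma Bd.add {B : ℤ} (hB : 0 ≤ B) {q r : Sy F (Option (Fin m))} (hq : Bd B q) (hr : Bd B r) :
    Bd B (q + r) := by
  intro γ hγ
  rw [Finsupp.add_apply] at hγ ⊢
  constructor
  · have h1 := MvPolynomial.totalDegree_add (q γ) (r γ)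
    have h2 : ((q γ).totalDegree : ℤ) ≤ B := by
      by_cases h : q γ = 0
      · rw [h]; simpa using hB
      · exact (hq γ h).1
    have h3 : ((r γ).totalDegree : ℤ) ≤ B := by
      by_cases h : r γ = 0
      · rw [h]; simpa using hB
      · exact (hr γ h).1
    omega
  · intro i
    by_cases h : q γ = 0
    · have h' : r γ ≠ 0 := by
        intro h''
        exact hγ (by rw [h, h'', add_zero])
      exact (hr γ h').2 i
    · exact (hq γ h).2 i

omit [CharZero F] in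
lemma Bd.smul {B : ℤ} {q : Sy F (Option (Fin m))} (hq : Bd B q) (c : F) : Bd B (c • q) := by
  intro γ hγ
  have he : (c • q) γ = MvPolynomial.C c * q γ := by
    rw [← MvPolynomial.smul_eq_C_mul]; rfl
  rw [he] at hγ ⊢
  have h : q γ ≠ 0 := right_ne_zero_of_mul hγ
  refine ⟨le_trans ?_ (hq γ h).1, (hq γ h).2⟩
  have h2 := MvPolynomial.totalDegree_mul (MvPolynomial.C c) (q γ)
  rw [MvPolynomial.totalDegree_C, zero_add] at h2
  exact_mod_cast h2

lemma exists_Bd_span (s : Finset (Atilde F m)) :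
    ∃ B : ℤ, 0 ≤ B ∧ ∀ Z ∈ Submodule.span F (s : Set (Atilde F m)), Bd B (sy Z) := by
  classical
  have h1 : ∃ B : ℤ, 0 ≤ B ∧ ∀ Z ∈ s, Bd B (sy Z) := by
    induction s using Finset.induction_on with
    | empty => exact ⟨0, le_rfl, by simp⟩
    | insert a s _ ih =>
      obtain ⟨B, hB, h⟩ := ih
      obtain ⟨B', hB', h'⟩ := exists_Bd (sy a)
      refine ⟨max B B', le_max_of_le_left hB, ?_⟩
      intro Z hZ
      rw [Finset.mem_insert] at hZ
      rcases hZ with rfl | hZ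
      · exact h'.mono (le_max_right _ _)
      · exact (h Z hZ).mono (le_max_left _ _)
  obtain ⟨B, hB, h⟩ := h1
  refine ⟨B, hB, ?_⟩
  intro Z hZ
  induction hZ using Submodule.span_induction with
  | mem x hx => exact h x hx
  | zero => rw [sy_zero]; intro γ hγ; simp at hγ
  | add x y _ _ hx hy => rw [sy_add]; exact hx.add hB hy
  | smul c x _ hx => rw [sy_smul]; exact hx.smul c

omit [CharZero F] in
/-- The maximum of a coordinate on a support. -/
lemma exists_maxCoord (q : Sy F (Option (Fin m))) (hq : q ≠ 0) (ω : (Option (Fin m) → ℤ) →+ ℤ) :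
    ∃ M : ℤ, (∀ γ, q γ ≠ 0 → ω γ ≤ M) ∧ ∃ γ, q γ ≠ 0 ∧ ω γ = M := by
  obtain ⟨γ, hγ, h⟩ := Finset.exists_max_image q.support ω (Finsupp.support_nonempty_iff.mpr hq)
  exact ⟨ω γ, fun δ hδ => h δ (Finsupp.mem_support_iff.mpr hδ), γ, Finsupp.mem_support_iff.mp hγ, rfl⟩

lemma abs_max_add {B : ℤ} {Z W : Atilde F m} (hZ : Z ≠ 0) (hW : W ≠ 0) (hB : Bd B (sy (Z * W)))
    (i : Option (Fin m)) (ε : ℤ) (hε : |ε| = 1) (M M' : ℤ)
    (hM : (∀ γ, sy Z γ ≠ 0 → ε * γ i ≤ M) ∧ ∃ γ, sy Z γ ≠ 0 ∧ ε * γ i = M)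
    (hM' : (∀ γ, sy W γ ≠ 0 → ε * γ i ≤ M') ∧ ∃ γ, sy W γ ≠ 0 ∧ ε * γ i = M') :
    |M + M'| ≤ B := by
  obtain ⟨γ, hγ, δ, hδ, h1, h2, h3⟩ := star_extreme
    ((AddMonoidHom.mulLeft ε).comp (Pi.evalAddMonoidHom (fun _ : Option (Fin m) => ℤ) i))
    (sy Z) (sy W) (sy_ne_zero hZ) (sy_ne_zero hW)
  simp only [AddMonoidHom.coe_comp, Function.comp_apply, Pi.evalAddMonoidHom_apply,
    AddMonoidHom.coe_mulLeft] at h2 h3
  rw [← sy_mul] at h1
  have h4 := (hB _ h1).2 i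
  obtain ⟨γ', hγ', h5⟩ := hM.2
  obtain ⟨δ', hδ', h6⟩ := hM'.2
  have h7 := h2 γ' (Finsupp.mem_support_iff.mpr hγ')
  have h8 := h3 δ' (Finsupp.mem_support_iff.mpr hδ')
  have h9 := hM.1 γ (Finsupp.mem_support_iff.mp hγ)
  have h10 := hM'.1 δ (Finsupp.mem_support_iff.mp hδ)
  have h11 : M + M' = ε * (γ + δ) i := by
    rw [Pi.add_apply, mul_add]
    linarith
  rw [h11, abs_mul, hε, one_mul]
  exact h4

lemma degree_le_of_mul {B : ℤ} (hB0 : 0 ≤ B) {Z W : Atilde F m} (hZ : Z ≠ 0) (hW : W ≠ 0)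
    (hB : Bd B (sy (Z * W))) (γ : Option (Fin m) → ℤ) (hγ : sy Z γ ≠ 0) :
    ((sy Z γ).totalDegree : ℤ) ≤ B := by
  obtain ⟨γ', hγ', δ, hδ, h1, h2, h3⟩ := star_degree (sy Z) (sy W) (sy_ne_zero hZ) (sy_ne_zero hW)
  have h4 := h2 γ (Finsupp.mem_support_iff.mpr hγ)
  rw [← sy_mul] at h1
  by_cases h : sy (Z * W) (γ' + δ) = 0
  · rw [h] at h1
    simp only [MvPolynomial.totalDegree_zero] at h1
    omega
  · have h5 := (hB _ h).1
    omega

lemma lin_bound (M : ℤ → ℤ) (B C : ℤ) (hB : ∀ n, |M n + M (-n)| ≤ B)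
    (hC : ∀ n, |M (n + 1) + M (-n)| ≤ C) (n : ℤ) : |M n| ≤ |M 0| + (B + C) * |n| := by
  have h1 : ∀ n, |M (n + 1) - M n| ≤ B + C := by
    intro n
    have h2 := hB n
    have h3 := hC n
    rw [abs_le] at h2 h3 ⊢
    constructor <;> linarith
  induction n using Int.induction_on with
  | zero => simp
  | succ n ih =>
    have h2 := h1 n
    rw [abs_of_nonneg (by positivity : (0 : ℤ) ≤ (n : ℤ) + 1)]
    rw [abs_of_nonneg (by positivity : (0 : ℤ) ≤ (n : ℤ))] at ih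
    have h3 : |M (n + 1)| ≤ |M (n + 1) - M n| + |M n| := by
      have := abs_add_le (M (n + 1) - M n) (M n)
      simpa using this
    nlinarith
  | pred n ih =>
    have h2 := h1 (-(n : ℤ) - 1)
    rw [sub_add_cancel] at h2
    rw [abs_neg, abs_of_nonneg (by positivity : (0 : ℤ) ≤ (n : ℤ))] at ih
    rw [abs_of_nonpos (by linarith [(by positivity : (0 : ℤ) ≤ (n : ℤ))] : -(n : ℤ) - 1 ≤ 0)]
    have h3 : |M (-(n : ℤ) - 1)| ≤ |M (-(n : ℤ)) - M (-(n : ℤ) - 1)| + |M (-(n : ℤ))| := by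
      have := abs_sub (M (-(n : ℤ))) (M (-(n : ℤ)) - M (-(n : ℤ) - 1))
      rw [sub_sub_cancel] at this
      linarith
    nlinarith

/-- Bounds for a family of nonzero elements whose products span finite-dimensional spaces. -/
theorem family_bound (z : ℤ → Atilde F m) (hz : ∀ n, z n ≠ 0)
    (h0 : ∃ s : Finset (Atilde F m), ∀ n, z n * z (-n) ∈ Submodule.span F (s : Set (Atilde F m)))
    (h1 : ∃ s : Finset (Atilde F m), ∀ n,
      z (n + 1) * z (-n) ∈ Submodule.span F (s : Set (Atilde F m))) :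
    ∃ K : ℤ, 0 ≤ K ∧ ∀ n γ, sy (z n) γ ≠ 0 → ((sy (z n) γ).totalDegree : ℤ) ≤ K ∧
      (∀ j, |γ (some j)| ≤ K) ∧ |γ none| ≤ K * (|n| + 1) := by
  obtain ⟨s0, hs0⟩ := h0
  obtain ⟨s1, hs1⟩ := h1
  obtain ⟨B, hB, hBs⟩ := exists_Bd_span s0
  obtain ⟨C, hC, hCs⟩ := exists_Bd_span s1
  have hb : ∀ n, Bd B (sy (z n * z (-n))) := fun n => hBs _ (hs0 n)
  have hc : ∀ n, Bd C (sy (z (n + 1) * z (-n))) := fun n => hCs _ (hs1 n)
  have hdeg : ∀ n γ, sy (z n) γ ≠ 0 → ((sy (z n) γ).totalDegree : ℤ) ≤ B := fun n γ hγ =>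
    degree_le_of_mul hB (hz n) (hz (-n)) (hb n) γ hγ
  have hex : ∀ (i : Option (Fin m)) (ε : ℤ), ∃ M : ℤ → ℤ, ∀ n,
      (∀ γ, sy (z n) γ ≠ 0 → ε * γ i ≤ M n) ∧ ∃ γ, sy (z n) γ ≠ 0 ∧ ε * γ i = M n := by
    intro i ε
    have h : ∀ n, ∃ M : ℤ, (∀ γ, sy (z n) γ ≠ 0 → ε * γ i ≤ M) ∧
        ∃ γ, sy (z n) γ ≠ 0 ∧ ε * γ i = M := by
      intro n
      have := exists_maxCoord (sy (z n)) (sy_ne_zero (hz n))
        ((AddMonoidHom.mulLeft ε).comp (Pi.evalAddMonoidHom (fun _ : Option (Fin m) => ℤ) i))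
      simpa only [AddMonoidHom.coe_comp, Function.comp_apply, Pi.evalAddMonoidHom_apply,
        AddMonoidHom.coe_mulLeft] using this
    choose M hM using h
    exact ⟨M, hM⟩
  -- lower bounds in the polynomial directions
  have hlow : ∀ n γ, sy (z n) γ ≠ 0 → ∀ j, -B ≤ γ (some j) := by
    intro n γ hγ j
    have h2 := (sy_spec (z n)).lower γ hγ j
    have h3 := hdeg n γ hγ
    linarith
  have hup : ∀ n γ, sy (z n) γ ≠ 0 → ∀ j, γ (some j) ≤ 2 * B := by
    intro n γ hγ j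
    obtain ⟨M, hM⟩ := hex (some j) 1
    have h2 := abs_max_add (hz n) (hz (-n)) (hb n) (some j) 1 (by simp) _ _ (hM n) (hM (-n))
    have h3 := (hM n).1 γ hγ
    obtain ⟨δ, hδ, h4⟩ := (hM (-n)).2
    have h5 := hlow (-n) δ hδ j
    rw [abs_le] at h2
    linarith [h2.2]
  obtain ⟨M, hM⟩ := hex none 1
  obtain ⟨N, hN⟩ := hex none (-1)
  have hMl := lin_bound M B C
    (fun n => abs_max_add (hz n) (hz (-n)) (hb n) none 1 (by simp) _ _ (hM n) (hM (-n)))
    (fun n => abs_max_add (hz (n + 1)) (hz (-n)) (hc n) none 1 (by simp) _ _ (hM (n + 1)) (hM (-n)))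
  have hNl := lin_bound N B C
    (fun n => abs_max_add (hz n) (hz (-n)) (hb n) none (-1) (by simp) _ _ (hN n) (hN (-n)))
    (fun n => abs_max_add (hz (n + 1)) (hz (-n)) (hc n) none (-1) (by simp) _ _ (hN (n + 1))
      (hN (-n)))
  have hM0 := abs_nonneg (M 0)
  have hN0 := abs_nonneg (N 0)
  refine ⟨2 * B + C + |M 0| + |N 0|, by linarith, ?_⟩
  intro n γ hγ
  refine ⟨by linarith [hdeg n γ hγ], ?_, ?_⟩
  · intro j
    have h2 := hlow n γ hγ j
    have h3 := hup n γ hγ j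
    rw [abs_le]
    constructor <;> linarith
  · have h2 := (hM n).1 γ hγ
    have h3 := (hN n).1 γ hγ
    have h4 := hMl n
    have h5 := hNl n
    have h6 : 0 ≤ |n| := abs_nonneg n
    rw [abs_le] at h4 h5 ⊢
    constructor
    · nlinarith [h5.2, mul_nonneg hB h6, mul_nonneg hC h6, mul_nonneg hM0 h6, mul_nonneg hN0 h6]
    · nlinarith [h4.2, mul_nonneg hB h6, mul_nonneg hC h6, mul_nonneg hM0 h6, mul_nonneg hN0 h6]

end

end Pool.Agent.N88.WV
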