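import Pool.Agent.N88.WV.Bound

/-!
# Counting dimensions
-/

set_option autoImplicit false

namespace Pool.Agent.N88.WV

open Finsupp MvPolynomial

noncomputable section

variable {F : Type} [Field F] [CharZero F] {m : ℕ}

/-- A box of shifts. -/
def box (m : ℕ) (L K : ℤ) : Finset (Option (Fin m) → ℤ) :=
  Fintype.piFinset (fun i => i.elim (Finset.Icc (-L) L) (fun _ => Finset.Icc (-K) K))

lemma mem_box {L K : ℤ} {γ : Option (Fin m) → ℤ} :
    γ ∈ box m L K ↔ |γ none| ≤ L ∧ ∀ j, |γ (some j)| ≤ K := by
  simp only [box, Fintype.mem_piFinset, abs_le]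
  constructor
  · intro h
    refine ⟨?_, ?_⟩
    · simpa using h none
    · intro j
      simpa using h (some j)
  · rintro ⟨h1, h2⟩ i
    cases i with
    | none => simpa using h1
    | some j => simpa using h2 j

lemma card_box (L K : ℤ) :
    (box m L K).card = (2 * L + 1).toNat * ((2 * K + 1).toNat) ^ m := by
  rw [box, Fintype.card_piFinset, Fintype.prod_option]
  simp only [Option.elim, Int.card_Icc, Finset.prod_const, Finset.card_univ, Fintype.card_fin]
  congr 2
  · ring
  · congr 1; ring

theorem no_families (z w : ℤ → Atilde F m) (hz : ∀ n, z n ≠ 0) (hw : ∀ n, w n ≠ 0)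
    (hz0 : ∃ s : Finset (Atilde F m), ∀ n, z n * z (-n) ∈ Submodule.span F (s : Set (Atilde F m)))
    (hz1 : ∃ s : Finset (Atilde F m), ∀ n,
      z (n + 1) * z (-n) ∈ Submodule.span F (s : Set (Atilde F m)))
    (hw0 : ∃ s : Finset (Atilde F m), ∀ n, w n * w (-n) ∈ Submodule.span F (s : Set (Atilde F m)))
    (hw1 : ∃ s : Finset (Atilde F m), ∀ n,
      w (n + 1) * w (-n) ∈ Submodule.span F (s : Set (Atilde F m)))
    (hind : ∀ (N : ℕ) (c : Fin N × Fin N → F),
      (∑ x : Fin N × Fin N, c x • (w (x.2 : ℕ) * z (x.1 : ℕ))) = 0 → c = 0) : False := by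
  classical
  obtain ⟨K1, hK1, hb1⟩ := family_bound z hz hz0 hz1
  obtain ⟨K2, hK2, hb2⟩ := family_bound w hw hw0 hw1
  -- a common bound
  obtain ⟨K, hK⟩ : ∃ K : ℕ, (K : ℤ) = K1 + K2 := ⟨(K1 + K2).toNat, Int.toNat_of_nonneg (by omega)⟩
  set C : ℕ := ((2 * (K : ℤ) + 1).toNat) ^ m * (K + 1) ^ (m + 1) with hC
  have hCpos : 1 ≤ C := by
    have h1 : 1 ≤ (2 * (K : ℤ) + 1).toNat := by omega
    have := Nat.one_le_pow m _ h1
    have := Nat.one_le_pow (m + 1) _ (by omega : 0 < K + 1)
    exact Nat.one_le_iff_ne_zero.mpr (by positivity)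
  set N : ℕ := (4 * K + 2) * C + 1 with hN
  set L : ℤ := (K : ℤ) * (N + 1) with hL
  -- support and degree of the products
  have hprod : ∀ a b : ℕ, a < N → b < N → ∀ γ, sy (w b * z a) γ ≠ 0 →
      γ ∈ box m L K ∧ (sy (w b * z a) γ).totalDegree ≤ K := by
    intro a b ha hb γ hγ
    rw [sy_mul] at hγ ⊢
    obtain ⟨γ1, h1, γ2, h2, rfl⟩ := star_support_subset _ _ _ hγ
    have h3 := hb2 b γ1 (Finsupp.mem_support_iff.mp h1)
    have h4 := hb1 a γ2 (Finsupp.mem_support_iff.mp h2)
    constructor
    · rw [mem_box]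
      constructor
      · rw [Pi.add_apply]
        have h5 := abs_add_le (γ1 none) (γ2 none)
        have h6 := h3.2.2
        have h7 := h4.2.2
        rw [abs_of_nonneg (by positivity : (0 : ℤ) ≤ (b : ℤ))] at h6
        rw [abs_of_nonneg (by positivity : (0 : ℤ) ≤ (a : ℤ))] at h7
        have h8 : K2 * ((b : ℤ) + 1) ≤ K2 * ((N : ℤ) + 1) :=
          mul_le_mul_of_nonneg_left (by omega) hK2
        have h9 : K1 * ((a : ℤ) + 1) ≤ K1 * ((N : ℤ) + 1) :=
          mul_le_mul_of_nonneg_left (by omega) hK1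
        rw [hL, hK]
        linarith
      · intro j
        rw [Pi.add_apply]
        have h5 := abs_add_le (γ1 (some j)) (γ2 (some j))
        have h6 := h3.2.1 j
        have h7 := h4.2.1 j
        linarith
    · have hd1 : ∀ δ, (sy (w b) δ).totalDegree ≤ K2.toNat := by
        intro δ
        by_cases h : sy (w b) δ = 0
        · rw [h]; simp
        · have := (hb2 b δ h).1
          omega
      have hd2 : ∀ δ, (sy (z a) δ).totalDegree ≤ K1.toNat := by
        intro δ
        by_cases h : sy (z a) δ = 0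
        · rw [h]; simp
        · have := (hb1 a δ h).1
          omega
      have := totalDegree_star_le (sy (w b)) (sy (z a)) _ _ hd1 hd2 (γ1 + γ2)
      omega
  -- the linear map
  let T := (↥(box m L K)) × (Option (Fin m) → Fin (K + 1))
  let mon : (Option (Fin m) → Fin (K + 1)) → (Option (Fin m) →₀ ℕ) := fun f =>
    Finsupp.equivFunOnFinite.symm (fun i => (f i : ℕ))
  let Φ : (Fin N × Fin N → F) →ₗ[F] (T → F) :=
    { toFun := fun c t => MvPolynomial.coeff (mon t.2)
        ((∑ x : Fin N × Fin N, c x • sy (w (x.2 : ℕ) * z (x.1 : ℕ))) t.1.1)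
      map_add' := by
        intro c d
        funext t
        simp only [Pi.add_apply, add_smul, Finset.sum_add_distrib, Finsupp.add_apply,
          MvPolynomial.coeff_add]
      map_smul' := by
        intro a c
        funext t
        simp only [Pi.smul_apply, smul_eq_mul, mul_smul, RingHom.id_apply]
        rw [← Finset.smul_sum, Finsupp.smul_apply, MvPolynomial.coeff_smul, smul_eq_mul] }
  have hinj : Function.Injective Φ := by
    apply (injective_iff_map_eq_zero Φ).mpr
    intro c hc
    apply hind N c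
    have hsum : sy (∑ x : Fin N × Fin N, c x • (w (x.2 : ℕ) * z (x.1 : ℕ))) =
        ∑ x : Fin N × Fin N, c x • sy (w (x.2 : ℕ) * z (x.1 : ℕ)) := by
      have := map_sum (syL : Atilde F m →ₗ[F] Sy F (Option (Fin m)))
        (fun x : Fin N × Fin N => c x • (w (x.2 : ℕ) * z (x.1 : ℕ))) Finset.univ
      refine this.trans ?_
      apply Finset.sum_congr rfl
      intro x _
      exact map_smul _ _ _
    by_contra hne
    apply sy_ne_zero hne
    rw [hsum]
    ext1 γ
    rw [Finsupp.coe_zero, Pi.zero_apply]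
    by_cases hγ : γ ∈ box m L K
    · apply MvPolynomial.ext
      intro s
      rw [MvPolynomial.coeff_zero]
      by_cases hs : ∀ i, s i < K + 1
      · have h1 := congrFun hc (⟨γ, hγ⟩, fun i => ⟨s i, hs i⟩)
        have h2 : mon (fun i => ⟨s i, hs i⟩) = s := by
          ext i
          simp [mon]
        simp only [Φ, LinearMap.coe_mk, AddHom.coe_mk, h2, Pi.zero_apply] at h1
        exact h1
      · push Not at hs
        obtain ⟨i, hi⟩ := hs
        rw [Finsupp.finsetSum_apply, MvPolynomial.coeff_sum]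
        apply Finset.sum_eq_zero
        intro x _
        rw [Finsupp.smul_apply, MvPolynomial.coeff_smul]
        have h3 : MvPolynomial.coeff s (sy (w (x.2 : ℕ) * z (x.1 : ℕ)) γ) = 0 := by
          apply MvPolynomial.coeff_eq_zero_of_totalDegree_lt
          have h4 : (sy (w (x.2 : ℕ) * z (x.1 : ℕ)) γ).totalDegree ≤ K := by
            by_cases h : sy (w (x.2 : ℕ) * z (x.1 : ℕ)) γ = 0
            · rw [h]; simp
            · exact (hprod _ _ x.1.2 x.2.2 γ h).2
          refine lt_of_le_of_lt h4 ?_
          refine lt_of_lt_of_le (Nat.lt_of_succ_le hi) ?_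
          apply Finset.single_le_sum (f := fun i => s i) (fun _ _ => Nat.zero_le _)
          rw [Finsupp.mem_support_iff]
          omega
        rw [h3, smul_zero]
    · rw [Finsupp.finsetSum_apply]
      apply Finset.sum_eq_zero
      intro x _
      rw [Finsupp.smul_apply]
      have h3 : sy (w (x.2 : ℕ) * z (x.1 : ℕ)) γ = 0 := by
        by_contra h
        exact hγ (hprod _ _ x.1.2 x.2.2 γ h).1
      rw [h3, smul_zero]
  have hrank := LinearMap.finrank_le_finrank_of_injective hinj
  rw [Module.finrank_fintype_fun_eq_card, Module.finrank_fintype_fun_eq_card] at hrank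
  have hcard1 : Fintype.card (Fin N × Fin N) = N * N := by simp
  have hcard2 : Fintype.card T = (2 * L + 1).toNat * C := by
    simp only [T, Fintype.card_prod, Fintype.card_coe, card_box, Fintype.card_fun,
      Fintype.card_option, Fintype.card_fin]
    rw [hC, mul_assoc]
  rw [hcard1, hcard2] at hrank
  have hLn : (2 * L + 1).toNat = 2 * (K * (N + 1)) + 1 := by
    have h7 : 2 * L + 1 = ((2 * (K * (N + 1)) + 1 : ℕ) : ℤ) := by rw [hL]; push_cast; ring
    rw [h7, Int.toNat_natCast]
  rw [hLn] at hrank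
  have hN1 : 1 ≤ N := by omega
  have h5 : (2 * (K * (N + 1)) + 1) * C ≤ ((4 * K + 1) * C) * N := by
    nlinarith [Nat.zero_le (K * C * (N - 1)), mul_le_mul (le_refl (K * C)) hN1 (Nat.zero_le 1) (Nat.zero_le _)]
  have h6 : N * N = ((4 * K + 2) * C + 1) * N := by rw [← hN]
  nlinarith

end

end Pool.Agent.N88.WV
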