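import Mathlib

/-!
# Witt and Virasoro algebras, primitive ideals, localised Weyl algebras
-/

set_option autoImplicit false

namespace Pool.Agent.N88.WV

noncomputable section

/-- `L` is the Witt algebra `W = F[t, t⁻¹] ∂`: it has a basis `e_n = t^(n+1) ∂`, `n ∈ ℤ`, with
`[e_m, e_n] = (n - m) e_{m + n}`. -/
def IsWitt (F : Type) [Field F] (L : Type) [LieRing L] [LieAlgebra F L] : Prop :=
  ∃ e : Module.Basis ℤ F L, ∀ m n : ℤ, ⁅e m, e n⁆ = ((n - m : ℤ) : F) • e (m + n)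

/-- `L` is the Virasoro algebra: it has a basis consisting of elements `e_n`, `n ∈ ℤ`, and a central
element `z`, with `[e_m, e_n] = (n - m) e_{m + n}` if `m + n ≠ 0` and
`[e_m, e_{-m}] = -2 m e_0 + (m³ - m)/12 z`. -/
def IsVirasoro (F : Type) [Field F] (L : Type) [LieRing L] [LieAlgebra F L] : Prop :=
  ∃ b : Module.Basis (Option ℤ) F L, (∀ x : L, ⁅b none, x⁆ = 0) ∧
    ∀ m n : ℤ, ⁅b (some m), b (some n)⁆ = ((n - m : ℤ) : F) • b (some (m + n)) +
      (if m + n = 0 then (((m ^ 3 - m : ℤ) : F) / 12) • b none else 0)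

/-- A two-sided ideal is primitive if it is the annihilator of a simple left module. -/
def IsPrimitive {U : Type} [Ring U] (P : TwoSidedIdeal U) : Prop :=
  ∃ (M : Type) (_ : AddCommGroup M) (_ : Module U M), IsSimpleModule U M ∧
    ∀ a : U, a ∈ P ↔ ∀ x : M, a • x = 0

/-- The space `F[t, t⁻¹, s_1, …, s_m]`, given by its basis of monomials `t^n s^α`,
`(n, α) ∈ ℤ × ℕ^m`. -/
abbrev PolySp (F : Type) [Field F] (m : ℕ) : Type := (ℤ × (Fin m → ℕ)) →₀ F

/-- Multiplication by `t^j` on `F[t, t⁻¹, s_1, …, s_m]`. -/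
def tPow (F : Type) [Field F] (m : ℕ) (j : ℤ) : Module.End F (PolySp F m) :=
  Finsupp.linearCombination F (fun p : ℤ × (Fin m → ℕ) => Finsupp.single (p.1 + j, p.2) (1 : F))

/-- The derivative `∂/∂t` on `F[t, t⁻¹, s_1, …, s_m]`. -/
def dt (F : Type) [Field F] (m : ℕ) : Module.End F (PolySp F m) :=
  Finsupp.linearCombination F (fun p : ℤ × (Fin m → ℕ) => Finsupp.single (p.1 - 1, p.2) (p.1 : F))

/-- Multiplication by `s_i` on `F[t, t⁻¹, s_1, …, s_m]`. -/
def sMul (F : Type) [Field F] (m : ℕ) (i : Fin m) : Module.End F (PolySp F m) :=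
  Finsupp.linearCombination F (fun p : ℤ × (Fin m → ℕ) =>
    Finsupp.single (p.1, p.2 + Pi.single i 1) (1 : F))

/-- The derivative `∂/∂s_i` on `F[t, t⁻¹, s_1, …, s_m]`. -/
def ds (F : Type) [Field F] (m : ℕ) (i : Fin m) : Module.End F (PolySp F m) :=
  Finsupp.linearCombination F (fun p : ℤ × (Fin m → ℕ) =>
    Finsupp.single (p.1, p.2 - Pi.single i 1) (p.2 i : F))

/-- The algebra `Ã_{m+1} = F[t, t⁻¹, ∂] ⊗ A_m` (`F` of characteristic zero), as the algebra of operators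
on `F[t, t⁻¹, s_1, …, s_m]` generated by `t`, `t⁻¹`, `∂/∂t`, the `s_i` and the `∂/∂s_i`. -/
def Atilde (F : Type) [Field F] (m : ℕ) : Subalgebra F (Module.End F (PolySp F m)) :=
  Algebra.adjoin F ({tPow F m 1, tPow F m (-1), dt F m} ∪ Set.range (sMul F m) ∪
    Set.range (ds F m))

/-- Multiplication by `t_1^i t_2^j` on `F[t_1, t_1⁻¹, t_2, t_2⁻¹]`. -/
def torMul (F : Type) [Field F] (i j : ℤ) : Module.End F ((ℤ × ℤ) →₀ F) :=
  Finsupp.linearCombination F (fun p : ℤ × ℤ => Finsupp.single (p.1 + i, p.2 + j) (1 : F))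

/-- The derivative `∂/∂t_1` on `F[t_1, t_1⁻¹, t_2, t_2⁻¹]`. -/
def torD1 (F : Type) [Field F] : Module.End F ((ℤ × ℤ) →₀ F) :=
  Finsupp.linearCombination F (fun p : ℤ × ℤ => Finsupp.single (p.1 - 1, p.2) (p.1 : F))

/-- The derivative `∂/∂t_2` on `F[t_1, t_1⁻¹, t_2, t_2⁻¹]`. -/
def torD2 (F : Type) [Field F] : Module.End F ((ℤ × ℤ) →₀ F) :=
  Finsupp.linearCombination F (fun p : ℤ × ℤ => Finsupp.single (p.1, p.2 - 1) (p.2 : F))

/-- The algebra `F[t_1, t_1⁻¹, ∂_1] ⊗ F[t_2, t_2⁻¹, ∂_2]` (`F` of characteristic zero) of differential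
operators on the two-dimensional torus: the algebra of operators on `F[t_1, t_1⁻¹, t_2, t_2⁻¹]`
generated by `t_1, t_1⁻¹, t_2, t_2⁻¹, ∂/∂t_1, ∂/∂t_2`. -/
def DTorus (F : Type) [Field F] : Subalgebra F (Module.End F ((ℤ × ℤ) →₀ F)) :=
  Algebra.adjoin F {torMul F 1 0, torMul F (-1) 0, torMul F 0 1, torMul F 0 (-1), torD1 F, torD2 F}

end

end Pool.Agent.N88.WV
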