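import Pool.Agent.N88.WV.Rep

/-!
# Elements of the image of the enveloping algebra
-/

set_option autoImplicit false

namespace Pool.Agent.N88.WV

noncomputable section

variable (F : Type) [Field F]

/-- Signed binomial coefficients. -/
def sb (n k : ℕ) : F := (-1) ^ k * (n.choose k : F)

/-- `T_b = u^b v^b ((u - v)^4 (X + 2 b) + 8 u (u - v)^3) Y`. -/
def Tb (b : ℤ) : Module.End F (ℤ × ℤ → F) where
  toFun g := fun p => ∑ k ∈ Finset.range 5, sb F 4 k * ((p.1 : F) + b + 4 - k) * ((p.2 : F) - b - k) *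
    g (p.1 - (b + 4 - k), p.2 - (b + k))
  map_add' g h := by
    funext p
    simp only [Pi.add_apply, mul_add, Finset.sum_add_distrib]
  map_smul' c g := by
    funext p
    simp only [Pi.smul_apply, smul_eq_mul, RingHom.id_apply, Finset.mul_sum]
    apply Finset.sum_congr rfl
    intro k _
    ring

lemma Tb_apply (b : ℤ) (g : ℤ × ℤ → F) (p : ℤ × ℤ) :
    Tb F b g p = ∑ k ∈ Finset.range 5, sb F 4 k * ((p.1 : F) + b + 4 - k) * ((p.2 : F) - b - k) *
    g (p.1 - (b + 4 - k), p.2 - (b + k)) := rfl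

/-- The image of `(e_{i+2} e_i - 2 e_{i+1}^2 + e_i e_{i+2}) / 2`. -/
def Sb (i : ℤ) : Module.End F (ℤ × ℤ → F) where
  toFun g := fun p => -2 * g (p.1 - (2 * i + 2), p.2) +
    ∑ k ∈ Finset.range 3, sb F 2 k * ((p.1 : F) + i + 2 - k) * ((p.2 : F) - i - k) *
    g (p.1 - (i + 2 - k), p.2 - (i + k))
  map_add' g h := by
    funext p
    simp only [Pi.add_apply, mul_add, Finset.sum_add_distrib]
    ring
  map_smul' c g := by
    funext p
    simp only [Pi.smul_apply, smul_eq_mul, RingHom.id_apply, Finset.mul_sum, mul_add]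
    congr 1
    · ring
    apply Finset.sum_congr rfl
    intro k _
    ring

lemma Sb_apply (i : ℤ) (g : ℤ × ℤ → F) (p : ℤ × ℤ) :
    Sb F i g p = -2 * g (p.1 - (2 * i + 2), p.2) +
    ∑ k ∈ Finset.range 3, sb F 2 k * ((p.1 : F) + i + 2 - k) * ((p.2 : F) - i - k) *
    g (p.1 - (i + 2 - k), p.2 - (i + k)) := rfl

/-- `E_n = u^(2n) (u - v)^8 (X + 8) Y`. -/
def En (n : ℤ) : Module.End F (ℤ × ℤ → F) where
  toFun g := fun p => ∑ k ∈ Finset.range 9, sb F 8 k * ((p.1 : F) - 2 * n + k) * ((p.2 : F) - k) *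
    g (p.1 - (2 * n + 8 - k), p.2 - k)
  map_add' g h := by
    funext p
    simp only [Pi.add_apply, mul_add, Finset.sum_add_distrib]
  map_smul' c g := by
    funext p
    simp only [Pi.smul_apply, smul_eq_mul, RingHom.id_apply, Finset.mul_sum]
    apply Finset.sum_congr rfl
    intro k _
    ring

lemma En_apply (n : ℤ) (g : ℤ × ℤ → F) (p : ℤ × ℤ) :
    En F n g p = ∑ k ∈ Finset.range 9, sb F 8 k * ((p.1 : F) - 2 * n + k) * ((p.2 : F) - k) *
    g (p.1 - (2 * n + 8 - k), p.2 - k) := rfl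

set_option maxHeartbeats 4000000 in
lemma Tb_eq (b : ℤ) : eop F (b + 4) * eop F b - (4 : F) • (eop F (b + 3) * eop F (b + 1)) +
    (6 : F) • (eop F (b + 2) * eop F (b + 2)) - (4 : F) • (eop F (b + 1) * eop F (b + 3)) +
    eop F b * eop F (b + 4) = (2 : F) • Tb F b := by
  apply LinearMap.ext
  intro g
  funext p
  obtain ⟨x, y⟩ := p
  simp only [LinearMap.sub_apply, LinearMap.add_apply, Module.End.mul_apply, LinearMap.smul_apply,
    Pi.sub_apply, Pi.add_apply, Pi.smul_apply, smul_eq_mul, eop_apply, Tb_apply,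
    Finset.sum_range_succ, Finset.sum_range_zero, sb, Nat.choose]
  push_cast
  ring_nf

set_option maxHeartbeats 4000000 in
lemma Sb_eq (i : ℤ) : eop F (i + 2) * eop F i - (2 : F) • (eop F (i + 1) * eop F (i + 1)) +
    eop F i * eop F (i + 2) = (2 : F) • Sb F i := by
  apply LinearMap.ext
  intro g
  funext p
  obtain ⟨x, y⟩ := p
  simp only [LinearMap.sub_apply, LinearMap.add_apply, Module.End.mul_apply, LinearMap.smul_apply,
    Pi.sub_apply, Pi.add_apply, Pi.smul_apply, smul_eq_mul, eop_apply, Sb_apply,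
    Finset.sum_range_succ, Finset.sum_range_zero, sb, Nat.choose]
  push_cast
  ring_nf

end

end Pool.Agent.N88.WV
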