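import Mathlib

/-!
# Sequences `A(k) + 2^k B(k)` with polynomials `A`, `B`
-/

set_option autoImplicit false

namespace Pool.Agent.N88.WV

open Polynomial

noncomputable section

variable {F : Type} [Field F] [CharZero F]

/-- If `A(k) + 2^k B(k) = 0` for all natural numbers `k`, then `A = B = 0`. -/
lemma exp_poly_zero (A B : F[X]) (h : ∀ k : ℕ, A.eval (k : F) + (2 : F) ^ k * B.eval (k : F) = 0) :
    A = 0 ∧ B = 0 := by
  have hB : ∀ (n : ℕ) (A B : F[X]), A.natDegree < n ∨ A = 0 →
      (∀ k : ℕ, A.eval (k : F) + (2 : F) ^ k * B.eval (k : F) = 0) → B = 0 := by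
    intro n
    induction n with
    | zero =>
      intro A B hA hk
      have hA0 : A = 0 := by
        rcases hA with h | h
        · omega
        · exact h
      apply Polynomial.eq_zero_of_infinite_isRoot
      apply Set.Infinite.mono (s := Set.range (fun k : ℕ => (k : F)))
      · rintro _ ⟨k, rfl⟩
        have := hk k
        rw [hA0, eval_zero, zero_add] at this
        have h2 : (2 : F) ^ k ≠ 0 := pow_ne_zero _ two_ne_zero
        exact (mul_eq_zero.mp this).resolve_left h2
      · exact Set.infinite_range_of_injective Nat.cast_injective
    | succ n ih =>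
      intro A B hA hk
      by_cases hA0 : A = 0
      · exact ih A B (Or.inr hA0) hk
      have hA' : A.natDegree < n + 1 := by
        rcases hA with h | h
        · exact h
        · exact absurd h hA0
      have h1 := ih (taylor 1 A - A) (C 2 * taylor 1 B - B) ?_ ?_
      · -- leading coefficients
        by_contra hB0
        have h2 : C 2 * taylor 1 B = B := sub_eq_zero.mp h1
        have h3 := congrArg leadingCoeff h2
        rw [leadingCoeff_mul, leadingCoeff_C, leadingCoeff_taylor] at h3
        have h4 : B.leadingCoeff ≠ 0 := leadingCoeff_ne_zero.mpr hB0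
        apply h4
        linear_combination h3
      · by_cases hz : taylor 1 A - A = 0
        · exact Or.inr hz
        · left
          have h2 : (taylor 1 A - A).degree < (taylor 1 A).degree := by
            apply degree_sub_lt_left
            · rw [degree_taylor]
            · intro h
              apply hA0
              rwa [taylor_eq_zero] at h
            · rw [leadingCoeff_taylor]
          rw [degree_taylor] at h2
          have h3 := natDegree_lt_natDegree hz h2
          omega
      · intro k
        have h2 := hk k
        have h3 := hk (k + 1)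
        rw [eval_sub, eval_sub, eval_mul, eval_C, taylor_eval, taylor_eval]
        push_cast at h3
        rw [pow_succ] at h3
        linear_combination h3 - h2
  have hB0 := hB (A.natDegree + 1) A B (Or.inl (Nat.lt_succ_self _)) h
  refine ⟨?_, hB0⟩
  apply Polynomial.eq_zero_of_infinite_isRoot
  apply Set.Infinite.mono (s := Set.range (fun k : ℕ => (k : F)))
  · rintro _ ⟨k, rfl⟩
    have := h k
    rw [hB0, eval_zero, mul_zero, add_zero] at this
    exact this
  · exact Set.infinite_range_of_injective Nat.cast_injective

/-- The coefficients of `A`, `B` lie in a subspace if all values `A(k) + 2^k B(k)` do. -/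
lemma exp_poly_mem {S : Type} [CommRing S] [Algebra F S] (W : Submodule F S) (A B : S[X])
    (h : ∀ k : ℕ, A.eval (algebraMap F S k) + (2 : F) ^ k • B.eval (algebraMap F S k) ∈ W) (i : ℕ) :
    A.coeff i ∈ W ∧ B.coeff i ∈ W := by
  have key : ∀ f : Module.Dual F S, (∀ w ∈ W, f w = 0) → f (A.coeff i) = 0 ∧ f (B.coeff i) = 0 := by
    intro f hf
    let P : S[X] → F[X] := fun A => ∑ j ∈ Finset.range (A.natDegree + 1), monomial j (f (A.coeff j))
    have hP1 : ∀ (A : S[X]) (k : ℕ), (P A).eval (k : F) = f (A.eval (algebraMap F S k)) := by
      intro A k
      simp only [P, eval_finsetSum, eval_monomial]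
      rw [eval_eq_sum_range, map_sum]
      apply Finset.sum_congr rfl
      intro j _
      rw [← map_pow, mul_comm (A.coeff j), ← Algebra.smul_def, map_smul, smul_eq_mul, mul_comm]
    have hP2 : ∀ (A : S[X]) (i : ℕ), (P A).coeff i = f (A.coeff i) := by
      intro A i
      simp only [P, finsetSum_coeff, coeff_monomial]
      rw [Finset.sum_ite_eq' (Finset.range (A.natDegree + 1)) i]
      split_ifs with h
      · rfl
      · rw [coeff_eq_zero_of_natDegree_lt (by
          rw [Finset.mem_range] at h; omega), map_zero]
    have h1 := exp_poly_zero (P A) (P B) (by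
      intro k
      rw [hP1, hP1]
      have := hf _ (h k)
      rwa [map_add, map_smul, smul_eq_mul] at this)
    rw [← hP2, ← hP2, h1.1, h1.2]
    simp
  constructor
  · by_contra hcon
    obtain ⟨f, hf1, hf2⟩ := Submodule.exists_dual_map_eq_bot_of_notMem hcon inferInstance
    apply hf1
    apply (key f _).1
    intro w hw
    have : f w ∈ W.map f := Submodule.mem_map_of_mem hw
    rwa [hf2, Submodule.mem_bot] at this
  · by_contra hcon
    obtain ⟨f, hf1, hf2⟩ := Submodule.exists_dual_map_eq_bot_of_notMem hcon inferInstance
    apply hf1
    apply (key f _).2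
    intro w hw
    have : f w ∈ W.map f := Submodule.mem_map_of_mem hw
    rwa [hf2, Submodule.mem_bot] at this

end

end Pool.Agent.N88.WV
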