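import Pool.Agent.N88.WV.Elts

/-!
# Products of the elements `E_n` and `T_b`
-/

set_option autoImplicit false

namespace Pool.Agent.N88.WV

noncomputable section

variable (F : Type) [Field F]

set_option maxHeartbeats 40000000 in
lemma En_eq (i : ℤ) : Sb F i * Tb F 4 - (4 : F) • (Sb F (i + 1) * Tb F 3) +
    (6 : F) • (Sb F (i + 2) * Tb F 2) - (4 : F) • (Sb F (i + 3) * Tb F 1) +
    Sb F (i + 4) * Tb F 0 = (-2 : F) • En F (i + 3) := by
  apply LinearMap.ext
  intro g
  funext p
  obtain ⟨x, y⟩ := p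
  simp only [LinearMap.sub_apply, LinearMap.add_apply, Module.End.mul_apply, LinearMap.smul_apply,
    Pi.sub_apply, Pi.add_apply, Pi.smul_apply, smul_eq_mul, Tb_apply, Sb_apply, En_apply,
    Finset.sum_range_succ, Finset.sum_range_zero, sb, Nat.choose]
  push_cast
  ring_nf

lemma En_mul (q n : ℤ) : En F n * En F (q - n) =
    (1 - n : F) • (En F 0 * En F q) + (n : F) • (En F 1 * En F (q - 1)) := by
  apply LinearMap.ext
  intro g
  funext p
  obtain ⟨x, y⟩ := p
  simp only [LinearMap.add_apply, Module.End.mul_apply, LinearMap.smul_apply,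
    Pi.add_apply, Pi.smul_apply, smul_eq_mul, En_apply, Finset.mul_sum, ← Finset.sum_add_distrib]
  apply Finset.sum_congr rfl
  intro k _
  apply Finset.sum_congr rfl
  intro l _
  have e1 : x - (2 * n + 8 - (k : ℤ)) - (2 * (q - n) + 8 - (l : ℤ)) = x - 2 * q - 16 + k + l := by ring
  have e2 : x - (2 * 0 + 8 - (k : ℤ)) - (2 * q + 8 - (l : ℤ)) = x - 2 * q - 16 + k + l := by ring
  have e3 : x - (2 * 1 + 8 - (k : ℤ)) - (2 * (q - 1) + 8 - (l : ℤ)) = x - 2 * q - 16 + k + l := by
    ring
  rw [e1, e2, e3]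
  push_cast
  ring

lemma Tb_mul [CharZero F] (q b : ℤ) : Tb F b * Tb F (q - b) =
    (-((b : F) - 1) * (b - 2) * (b - 3) / 6) • (Tb F 0 * Tb F q) +
    ((b : F) * (b - 2) * (b - 3) / 2) • (Tb F 1 * Tb F (q - 1)) +
    (-(b : F) * (b - 1) * (b - 3) / 2) • (Tb F 2 * Tb F (q - 2)) +
    ((b : F) * (b - 1) * (b - 2) / 6) • (Tb F 3 * Tb F (q - 3)) := by
  apply LinearMap.ext
  intro g
  funext p
  obtain ⟨x, y⟩ := p
  simp only [LinearMap.add_apply, Module.End.mul_apply, LinearMap.smul_apply,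
    Pi.add_apply, Pi.smul_apply, smul_eq_mul, Tb_apply, Finset.mul_sum, ← Finset.sum_add_distrib]
  apply Finset.sum_congr rfl
  intro k _
  apply Finset.sum_congr rfl
  intro l _
  have e1 : ∀ c : ℤ, x - (c + 4 - (k : ℤ)) - (q - c + 4 - (l : ℤ)) = x - q - 8 + k + l := by
    intro c; ring
  have e2 : ∀ c : ℤ, y - (c + (k : ℤ)) - (q - c + (l : ℤ)) = y - q - k - l := by
    intro c; ring
  have e3 : x - (0 + 4 - (k : ℤ)) - (q + 4 - (l : ℤ)) = x - q - 8 + k + l := by ring
  have e4 : y - (0 + (k : ℤ)) - (q + (l : ℤ)) = y - q - k - l := by ring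
  rw [e1, e2, e3, e4, e1, e2, e1, e2, e1, e2]
  push_cast
  field_simp
  ring

/-- The function supported at one point. -/
def dl (a b : ℤ) : ℤ × ℤ → F := fun p => if p = (a, b) then 1 else 0

lemma En_ne_zero [CharZero F] (n : ℤ) : En F n ≠ 0 := by
  intro h
  have h1 := congrFun (congrArg (fun T : Module.End F (ℤ × ℤ → F) => T (dl F 1 1)) h) (2 * n + 9, 1)
  simp only [En_apply, LinearMap.zero_apply, Pi.zero_apply] at h1
  rw [Finset.sum_eq_single 0] at h1
  · simp only [dl] at h1
    norm_num [sb] at h1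
  · intro k _ hk
    have : dl F 1 1 (2 * n + 9 - (2 * n + 8 - (k : ℤ)), 1 - (k : ℤ)) = 0 := by
      rw [dl, if_neg]
      intro h
      have := congrArg Prod.snd h
      simp only at this
      omega
    rw [this, mul_zero]
  · simp

lemma Tb_ne_zero [CharZero F] (b : ℤ) : Tb F b ≠ 0 := by
  intro h
  have h1 := congrFun (congrArg (fun T : Module.End F (ℤ × ℤ → F) => T (dl F 1 1)) h) (b + 5, b + 1)
  simp only [Tb_apply, LinearMap.zero_apply, Pi.zero_apply] at h1
  rw [Finset.sum_eq_single 0] at h1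
  · simp only [dl] at h1
    rw [if_pos (by ext <;> simp)] at h1
    have h2 : ((2 * b + 9 : ℤ) : F) = 0 := by
      rw [← h1]
      push_cast
      simp [sb]
      ring
    have h3 : (2 * b + 9 : ℤ) = 0 := by exact_mod_cast h2
    omega
  · intro k _ hk
    have : dl F 1 1 (b + 5 - (b + 4 - (k : ℤ)), b + 1 - (b + (k : ℤ))) = 0 := by
      rw [dl, if_neg]
      intro h
      have := congrArg Prod.snd h
      simp only at this
      omega
    rw [this, mul_zero]
  · simp


lemma TE_value (b n b0 n0 : ℤ) (hb : b0 ≤ b) :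
    (Tb F b * En F n) (dl F 1 1) (b0 + 2 * n0 + 13, b0 + 1) =
      if b = b0 ∧ n = n0 then ((2 * b0 + 2 * n0 + 17 : ℤ) : F) * 9 else 0 := by
  rw [Module.End.mul_apply, Tb_apply]
  simp only [En_apply]
  by_cases h : b = b0 ∧ n = n0
  · obtain ⟨rfl, rfl⟩ := h
    rw [if_pos ⟨rfl, rfl⟩, Finset.sum_eq_single 0]
    · rw [Finset.sum_eq_single 0]
      · simp only [dl]
        rw [if_pos (by ext <;> simp; ring)]
        push_cast
        simp [sb]
        ring
      · intro l _ hl
        rw [dl, if_neg, mul_zero]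
        intro h
        have := congrArg Prod.snd h
        simp only at this
        omega
      · simp
    · intro k _ hk
      rw [Finset.sum_eq_zero, mul_zero]
      intro l _
      rw [dl, if_neg, mul_zero]
      intro h
      have := congrArg Prod.snd h
      simp only at this
      omega
    · simp
  · rw [if_neg h]
    apply Finset.sum_eq_zero
    intro k _
    rw [Finset.sum_eq_zero, mul_zero]
    intro l _
    rw [dl, if_neg, mul_zero]
    intro h'
    apply h
    have h1 := congrArg Prod.snd h'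
    have h2 := congrArg Prod.fst h'
    simp only at h1 h2
    constructor <;> omega

lemma TE_indep [CharZero F] (N : ℕ) (c : Fin N × Fin N → F)
    (h : ∑ x : Fin N × Fin N, c x • (Tb F ((x.2 : ℕ) : ℤ) * En F ((x.1 : ℕ) : ℤ)) = 0) : c = 0 := by
  classical
  by_contra hc
  obtain ⟨y, hy⟩ : ∃ y, c y ≠ 0 := by
    by_contra hcon
    push Not at hcon
    exact hc (funext hcon)
  obtain ⟨x0, hx0, hmin⟩ := Finset.exists_min_image (Finset.univ.filter (fun x => c x ≠ 0))
    (fun x => (x.2 : ℕ)) ⟨y, by simp [hy]⟩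
  simp only [Finset.mem_filter, Finset.mem_univ, true_and] at hx0 hmin
  have h1 := congrFun (congrArg (fun T : Module.End F (ℤ × ℤ → F) => T (dl F 1 1)) h)
    (((x0.2 : ℕ) : ℤ) + 2 * ((x0.1 : ℕ) : ℤ) + 13, ((x0.2 : ℕ) : ℤ) + 1)
  simp only [LinearMap.sum_apply, LinearMap.smul_apply, Finset.sum_apply, Pi.smul_apply,
    LinearMap.zero_apply, Pi.zero_apply, smul_eq_mul] at h1
  rw [Finset.sum_eq_single x0] at h1
  · rw [TE_value F _ _ _ _ le_rfl, if_pos ⟨rfl, rfl⟩] at h1
    rcases mul_eq_zero.mp h1 with h2 | h2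
    · exact hx0 h2
    · rcases mul_eq_zero.mp h2 with h3 | h3
      · have h4 : (2 * ((x0.2 : ℕ) : ℤ) + 2 * ((x0.1 : ℕ) : ℤ) + 17 : ℤ) = 0 := by exact_mod_cast h3
        omega
      · norm_num at h3
  · intro x _ hx
    by_cases hcx : c x = 0
    · rw [hcx, zero_mul]
    · have h2 := hmin x hcx
      rw [TE_value F _ _ _ _ (by exact_mod_cast h2), if_neg, mul_zero]
      rintro ⟨h3, h4⟩
      apply hx
      apply Prod.ext
      · apply Fin.ext
        exact_mod_cast h4
      · apply Fin.ext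
        exact_mod_cast h3
  · intro h2; exact absurd (Finset.mem_univ _) h2

end

end Pool.Agent.N88.WV
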