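import Pool.Agent.N88.WV.Torus
import Pool.Agent.N88.WV.Prod
import Pool.Agent.N88.WV.Count

/-!
# The kernel is not the kernel of a map to `Ã_{m+1}`
-/

set_option autoImplicit false

namespace Pool.Agent.N88.WV

noncomputable section

variable {F : Type} [Field F] [CharZero F]

theorem no_map {U : Type} [Ring U] [Algebra F U] (ψ : U →ₐ[F] Module.End F (ℤ × ℤ → F))
    (h1 : ∀ n, ∃ x, ψ x = eop F n) (m : ℕ) (φ : U →ₐ[F] Atilde F m)
    (hφ : ∀ a, ψ a = 0 ↔ φ a = 0) : False := by
  have hS : ∀ n, eop F n ∈ ψ.range := by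
    intro n
    obtain ⟨x, hx⟩ := h1 n
    exact ⟨x, hx⟩
  have hmul : ∀ i j, eop F i * eop F j ∈ ψ.range := fun i j => Subalgebra.mul_mem _ (hS i) (hS j)
  have hT : ∀ b, Tb F b ∈ ψ.range := by
    intro b
    have h2 : (2 : F) • Tb F b ∈ ψ.range := by
      rw [← Tb_eq]
      exact Subalgebra.add_mem _ (Subalgebra.sub_mem _ (Subalgebra.add_mem _
        (Subalgebra.sub_mem _ (hmul _ _) (Subalgebra.smul_mem _ (hmul _ _) _))
        (Subalgebra.smul_mem _ (hmul _ _) _)) (Subalgebra.smul_mem _ (hmul _ _) _)) (hmul _ _)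
    have h3 := Subalgebra.smul_mem _ h2 (2 : F)⁻¹
    rwa [smul_smul, inv_mul_cancel₀ two_ne_zero, one_smul] at h3
  have hSb : ∀ b, Sb F b ∈ ψ.range := by
    intro b
    have h2 : (2 : F) • Sb F b ∈ ψ.range := by
      rw [← Sb_eq]
      exact Subalgebra.add_mem _ (Subalgebra.sub_mem _ (hmul _ _)
        (Subalgebra.smul_mem _ (hmul _ _) _)) (hmul _ _)
    have h3 := Subalgebra.smul_mem _ h2 (2 : F)⁻¹
    rwa [smul_smul, inv_mul_cancel₀ two_ne_zero, one_smul] at h3
  have hST : ∀ i j, Sb F i * Tb F j ∈ ψ.range := fun i j => Subalgebra.mul_mem _ (hSb i) (hT j)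
  have hE : ∀ n, En F n ∈ ψ.range := by
    intro n
    have h2 : (-2 : F) • En F (n - 3 + 3) ∈ ψ.range := by
      rw [← En_eq]
      exact Subalgebra.add_mem _ (Subalgebra.sub_mem _ (Subalgebra.add_mem _
        (Subalgebra.sub_mem _ (hST _ _) (Subalgebra.smul_mem _ (hST _ _) _))
        (Subalgebra.smul_mem _ (hST _ _) _)) (Subalgebra.smul_mem _ (hST _ _) _)) (hST _ _)
    have h3 := Subalgebra.smul_mem _ h2 (-2 : F)⁻¹
    rwa [smul_smul, inv_mul_cancel₀ (neg_ne_zero.mpr two_ne_zero), one_smul, sub_add_cancel] at h3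
  choose e he using hE
  choose t ht using hT
  have he' : ∀ n, ψ (e n) = En F n := he
  have ht' : ∀ n, ψ (t n) = Tb F n := ht
  have heq : ∀ a b, ψ a = ψ b → φ a = φ b := by
    intro a b hab
    have h2 : ψ (a - b) = 0 := by rw [map_sub, hab, sub_self]
    have h3 := (hφ _).mp h2
    have h4 : a = (a - b) + b := by rw [sub_add_cancel]
    rw [h4, map_add, h3, zero_add]
  have hz : ∀ n, φ (e n) ≠ 0 := by
    intro n h
    have := (hφ _).mpr h
    rw [he'] at this
    exact En_ne_zero F n this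
  have hw : ∀ n, φ (t n) ≠ 0 := by
    intro n h
    have := (hφ _).mpr h
    rw [ht'] at this
    exact Tb_ne_zero F n this
  have hzq : ∀ q n : ℤ, φ (e n) * φ (e (q - n)) =
      (1 - n : F) • (φ (e 0) * φ (e q)) + (n : F) • (φ (e 1) * φ (e (q - 1))) := by
    intro q n
    have h2 : ψ (e n * e (q - n)) =
        ψ ((1 - n : F) • (e 0 * e q) + (n : F) • (e 1 * e (q - 1))) := by
      rw [map_mul, map_add, map_smul, map_smul, map_mul, map_mul]
      simp only [he']
      exact En_mul F q n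
    have h3 := heq _ _ h2
    rwa [map_mul, map_add, map_smul, map_smul, map_mul, map_mul] at h3
  have hwq : ∀ q b : ℤ, φ (t b) * φ (t (q - b)) =
      (-((b : F) - 1) * (b - 2) * (b - 3) / 6) • (φ (t 0) * φ (t q)) +
      ((b : F) * (b - 2) * (b - 3) / 2) • (φ (t 1) * φ (t (q - 1))) +
      (-(b : F) * (b - 1) * (b - 3) / 2) • (φ (t 2) * φ (t (q - 2))) +
      ((b : F) * (b - 1) * (b - 2) / 6) • (φ (t 3) * φ (t (q - 3))) := by
    intro q b
    have h2 : ψ (t b * t (q - b)) = ψ (
        (-((b : F) - 1) * (b - 2) * (b - 3) / 6) • (t 0 * t q) +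
        ((b : F) * (b - 2) * (b - 3) / 2) • (t 1 * t (q - 1)) +
        (-(b : F) * (b - 1) * (b - 3) / 2) • (t 2 * t (q - 2)) +
        ((b : F) * (b - 1) * (b - 2) / 6) • (t 3 * t (q - 3))) := by
      simp only [map_mul, map_add, map_smul, ht']
      exact Tb_mul F q b
    have h3 := heq _ _ h2
    simpa only [map_mul, map_add, map_smul] using h3
  classical
  have span_e : ∀ q : ℤ, ∃ s : Finset (Atilde F m), ∀ n : ℤ,
      φ (e n) * φ (e (q - n)) ∈ Submodule.span F (s : Set (Atilde F m)) := by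
    intro q
    refine ⟨{φ (e 0) * φ (e q), φ (e 1) * φ (e (q - 1))}, ?_⟩
    intro n
    rw [hzq q n]
    apply Submodule.add_mem
    · exact Submodule.smul_mem _ _ (Submodule.subset_span (by simp))
    · exact Submodule.smul_mem _ _ (Submodule.subset_span (by simp))
  have span_t : ∀ q : ℤ, ∃ s : Finset (Atilde F m), ∀ n : ℤ,
      φ (t n) * φ (t (q - n)) ∈ Submodule.span F (s : Set (Atilde F m)) := by
    intro q
    refine ⟨{φ (t 0) * φ (t q), φ (t 1) * φ (t (q - 1)), φ (t 2) * φ (t (q - 2)),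
      φ (t 3) * φ (t (q - 3))}, ?_⟩
    intro n
    rw [hwq q n]
    apply Submodule.add_mem
    · apply Submodule.add_mem
      · apply Submodule.add_mem
        · exact Submodule.smul_mem _ _ (Submodule.subset_span (by simp))
        · exact Submodule.smul_mem _ _ (Submodule.subset_span (by simp))
      · exact Submodule.smul_mem _ _ (Submodule.subset_span (by simp))
    · exact Submodule.smul_mem _ _ (Submodule.subset_span (by simp))
  have fix0 : ∀ f : ℤ → Atilde F m, (∃ s : Finset (Atilde F m), ∀ n : ℤ,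
      f n * f (0 - n) ∈ Submodule.span F (s : Set (Atilde F m))) →
      ∃ s : Finset (Atilde F m), ∀ n : ℤ, f n * f (-n) ∈ Submodule.span F (s : Set (Atilde F m)) := by
    rintro f ⟨s, hs⟩
    refine ⟨s, fun n => ?_⟩
    have := hs n
    rwa [zero_sub] at this
  have fix1 : ∀ f : ℤ → Atilde F m, (∃ s : Finset (Atilde F m), ∀ n : ℤ,
      f n * f (1 - n) ∈ Submodule.span F (s : Set (Atilde F m))) →
      ∃ s : Finset (Atilde F m), ∀ n : ℤ,
        f (n + 1) * f (-n) ∈ Submodule.span F (s : Set (Atilde F m)) := by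
    rintro f ⟨s, hs⟩
    refine ⟨s, fun n => ?_⟩
    have := hs (n + 1)
    have h2 : 1 - (n + 1) = -n := by ring
    rwa [h2] at this
  refine no_families (fun n => φ (e n)) (fun n => φ (t n)) hz hw
    (fix0 _ (span_e 0)) (fix1 _ (span_e 1)) (fix0 _ (span_t 0)) (fix1 _ (span_t 1)) ?_
  intro N c hc
  apply TE_indep F N c
  have h2 : φ (∑ x : Fin N × Fin N, c x • (t ((x.2 : ℕ) : ℤ) * e ((x.1 : ℕ) : ℤ))) = 0 := by
    rw [map_sum, ← hc]
    apply Finset.sum_congr rfl
    intro x _
    rw [map_smul, map_mul]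
  have h3 := (hφ _).mpr h2
  rw [map_sum] at h3
  rw [← h3]
  apply Finset.sum_congr rfl
  intro x _
  rw [map_smul, map_mul, he', ht']

end

end Pool.Agent.N88.WV
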