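import Pool.Agent.N88.WV.Ext

/-!
# The space of polynomials in two variables has no proper invariant subspace
-/

set_option autoImplicit false

namespace Pool.Agent.N88.WV

open Polynomial

noncomputable section

variable {F : Type} [Field F]

/-- Polynomials in two variables (outer variable `x`, inner variable `y`). -/
abbrev PP (F : Type) [Field F] : Type := Polynomial (Polynomial F)

/-- `q(x, y) ↦ q(x + c, y)`. -/
def sx (c : F) : PP F →+* PP F := compRingHom (X + C (C c))

/-- `q(x, y) ↦ q(x, y + c)`. -/
def syy (c : F) : PP F →+* PP F := mapRingHom (compRingHom (X + C c))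

/-- `q(x, y) ↦ q(x + T, y)`. -/
def Qx (q : PP F) : Polynomial (PP F) := taylor (X : PP F) (q.map C)

lemma Qx_eval (q : PP F) (c : F) : (Qx q).eval (C (C c)) = sx c q := by
  rw [Qx, taylor_eval, eval_map, sx, coe_compRingHom_apply, comp]
  rw [add_comm]

lemma Qx_coeff_zero (q : PP F) : (Qx q).coeff 0 = q := by
  rw [coeff_zero_eq_eval_zero, Qx, taylor_eval, zero_add, eval_map, eval₂_C_X]

lemma Qx_natDegree (q : PP F) : (Qx q).natDegree = q.natDegree := by
  rw [Qx, natDegree_taylor, natDegree_map_eq_of_injective C_injective]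

lemma Qx_coeff_natDegree (q : PP F) : (Qx q).coeff q.natDegree = C q.leadingCoeff := by
  have h1 : (Qx q).leadingCoeff = C q.leadingCoeff := by
    rw [Qx, leadingCoeff_taylor, leadingCoeff_map_of_injective C_injective]
  rw [leadingCoeff, Qx_natDegree] at h1
  exact h1

/-- `c(y) ↦ c(y + T)`. -/
def thy : Polynomial F →+* Polynomial (PP F) :=
  eval₂RingHom (S := Polynomial (PP F))
    ((C : PP F →+* Polynomial (PP F)).comp ((C : F[X] →+* PP F).comp C))
    (X + C (C X : PP F))

/-- `q(x, y) ↦ q(x, y + T)`. -/
def Qy (q : PP F) : Polynomial (PP F) := eval₂ thy (C X) q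

lemma Qy_eval (q : PP F) (c : F) : (Qy q).eval (C (C c)) = syy c q := by
  have h1 := hom_eval₂ q (thy (F := F)) (evalRingHom (C (C c) : PP F)) (C X)
  rw [coe_evalRingHom] at h1
  rw [Qy, h1, eval_C, syy, coe_mapRingHom, map]
  congr 1
  apply Polynomial.ringHom_ext
  · intro a
    simp [thy]
  · simp [thy, add_comm]

lemma Qy_C (c : F[X]) : Qy (C c : PP F) = thy c := by
  rw [Qy, eval₂_C]

lemma thy_eq (c : F[X]) : thy c = taylor (C X : PP F) (c.map ((C : F[X] →+* PP F).comp C)) := by
  rw [thy, coe_eval₂RingHom, taylor_apply, comp, eval₂_map]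

lemma thy_natDegree (c : F[X]) : (thy c).natDegree = c.natDegree := by
  rw [thy_eq, natDegree_taylor, natDegree_map_eq_of_injective]
  exact fun a b h => C_injective (C_injective h)

lemma thy_coeff_natDegree (c : F[X]) : (thy c).coeff c.natDegree = C (C c.leadingCoeff) := by
  have h1 : (thy c).leadingCoeff = C (C c.leadingCoeff) := by
    rw [thy_eq, leadingCoeff_taylor, leadingCoeff_map_of_injective
      (f := (C : F[X] →+* PP F).comp C) (fun a b h => C_injective (C_injective h))]
    rfl
  rw [leadingCoeff, thy_natDegree] at h1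
  exact h1

lemma Qy_coeff_zero (q : PP F) : (Qy q).coeff 0 = q := by
  have h := Qy_eval q 0
  rw [map_zero, map_zero, ← coeff_zero_eq_eval_zero] at h
  have h1 : compRingHom (X + C 0 : F[X]) = RingHom.id _ := by
    apply Polynomial.ringHom_ext
    · intro a; simp
    · simp
  rw [h, syy, h1, coe_mapRingHom, map_id]

/-- A nonzero subspace of the polynomials that is stable under the operators
`q ↦ (x - k) q(x + k, y) + 2^k (y + k) q(x, y + k)`, `k ∈ ℕ`, is everything. -/
theorem subspace_eq_top [CharZero F] (N : Submodule F (PP F))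
    (hN : ∀ q ∈ N, ∀ k : ℕ, (X - C (C (k : F))) * sx (k : F) q +
      (2 : F) ^ k • ((C (X + C (k : F))) * syy (k : F) q) ∈ N)
    (h0 : ∃ q ∈ N, q ≠ 0) : N = ⊤ := by
  have key : ∀ q ∈ N, ∀ i, ((C X + C (-1) * X) * Qx q : Polynomial (PP F)).coeff i ∈ N ∧
      ((X + C (C X)) * Qy q : Polynomial (PP F)).coeff i ∈ N := by
    intro q hq i
    apply exp_poly_mem N
    intro k
    have h1 : (algebraMap F (PP F) (k : F)) = C (C (k : F)) := rfl
    rw [h1, eval_mul, eval_mul, Qx_eval, Qy_eval]
    have h2 := hN q hq k
    convert h2 using 2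
    · congr 1
      simp only [eval_add, eval_mul, eval_C, eval_X]
      ring
    · simp [add_comm]
  have hX : ∀ q ∈ N, X * q ∈ N := by
    intro q hq
    have h := (key q hq 0).1
    rw [mul_coeff_zero, Qx_coeff_zero] at h
    simpa using h
  have hY : ∀ q ∈ N, C X * q ∈ N := by
    intro q hq
    have h := (key q hq 0).2
    rw [mul_coeff_zero, Qy_coeff_zero] at h
    simpa using h
  have hmul : ∀ g : PP F, ∀ q ∈ N, g * q ∈ N := by
    have hC : ∀ c : F[X], ∀ q ∈ N, C c * q ∈ N := by
      intro c
      induction c using Polynomial.induction_on' with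
      | add p r hp hr =>
        intro q hq
        rw [C_add, add_mul]
        exact N.add_mem (hp q hq) (hr q hq)
      | monomial n a =>
        induction n with
        | zero =>
          intro q hq
          have h1 : (C (monomial 0 a) : PP F) * q = a • q := by
            rw [monomial_zero_left, Algebra.smul_def]; rfl
          rw [h1]
          exact N.smul_mem _ hq
        | succ n ih =>
          intro q hq
          have h1 : (C (monomial (n + 1) a) : PP F) * q = C (monomial n a) * (C X * q) := by
            rw [← mul_assoc, ← C_mul, monomial_mul_X]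
          rw [h1]
          exact ih _ (hY q hq)
    intro g
    induction g using Polynomial.induction_on' with
    | add p r hp hr =>
      intro q hq
      rw [add_mul]
      exact N.add_mem (hp q hq) (hr q hq)
    | monomial n a =>
      induction n with
      | zero =>
        intro q hq
        rw [monomial_zero_left]
        exact hC a q hq
      | succ n ih =>
        intro q hq
        have h1 : (monomial (n + 1) a : PP F) * q = monomial n a * (X * q) := by
          rw [← mul_assoc, monomial_mul_X]
        rw [h1]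
        exact ih _ (hX q hq)
  obtain ⟨q, hq, hq0⟩ := h0
  have h1 : (C q.leadingCoeff : PP F) ∈ N := by
    have h := (key q hq (q.natDegree + 1)).1
    rw [add_mul, coeff_add, coeff_C_mul, mul_assoc, coeff_C_mul, coeff_X_mul, Qx_coeff_natDegree,
      coeff_eq_zero_of_natDegree_lt (by rw [Qx_natDegree]; omega), mul_zero, zero_add] at h
    have h6 := N.neg_mem h
    have h7 : -((-1 : PP F) * C q.leadingCoeff) = C q.leadingCoeff := by ring
    rwa [h7] at h6
  set c := q.leadingCoeff with hc
  have hc0 : c ≠ 0 := leadingCoeff_ne_zero.mpr hq0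
  have h2 : (C (C c.leadingCoeff) : PP F) ∈ N := by
    have h := (key (C c) h1 (c.natDegree + 1)).2
    rw [add_mul, coeff_add, coeff_C_mul, coeff_X_mul, Qy_C, thy_coeff_natDegree,
      coeff_eq_zero_of_natDegree_lt (by rw [thy_natDegree]; omega), mul_zero, add_zero] at h
    exact h
  have h3 : c.leadingCoeff ≠ 0 := leadingCoeff_ne_zero.mpr hc0
  rw [eq_top_iff]
  intro g _
  have h4 := hmul (g * C (C c.leadingCoeff⁻¹)) _ h2
  have h5 : g * C (C c.leadingCoeff⁻¹) * C (C c.leadingCoeff) = g := by
    rw [mul_assoc, ← C_mul, ← C_mul, inv_mul_cancel₀ h3, C_1, C_1, mul_one]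
  rwa [h5] at h4

end

end Pool.Agent.N88.WV
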