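import Pool.Agent.N88.WV.Rep
import Pool.Agent.N88.WV.Mod

/-!
# A simple module
-/

set_option autoImplicit false

namespace Pool.Agent.N88.WV

open Polynomial

noncomputable section

variable {F : Type} [Field F] [CharZero F]

/-- Evaluation at a lattice point. -/
def evR (p : ℤ × ℤ) : PP F →+* F :=
  (evalRingHom (p.2 : F)).comp (evalRingHom (C (p.1 : F)))

omit [CharZero F] in
lemma evR_apply (p : ℤ × ℤ) (q : PP F) : evR p q = (q.eval (C (p.1 : F))).eval (p.2 : F) := rfl

omit [CharZero F] in
lemma evR_sx (p : ℤ × ℤ) (n : ℤ) (q : PP F) : evR p (sx ((-n : ℤ) : F) q) = evR (p.1 - n, p.2) q := by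
  rw [evR_apply, evR_apply, sx, coe_compRingHom_apply, eval_comp]
  congr 2
  simp only [eval_add, eval_X, eval_C]
  rw [← C_add]
  push_cast
  ring_nf

omit [CharZero F] in
lemma evR_syy (p : ℤ × ℤ) (n : ℤ) (q : PP F) :
    evR p (syy ((-n : ℤ) : F) q) = evR (p.1, p.2 - n) q := by
  rw [evR_apply, evR_apply, syy, coe_mapRingHom, eval_map]
  have h1 : (C (p.1 : F) : F[X]) = compRingHom (X + C ((-n : ℤ) : F)) (C (p.1 : F)) := by simp
  conv_lhs => rw [h1, eval₂_at_apply]
  rw [coe_compRingHom_apply, eval_comp]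
  congr 1
  simp only [eval_add, eval_X, eval_C]
  push_cast
  ring

omit [CharZero F] in
lemma evR_C (p : ℤ × ℤ) (c : F) : evR p (C (C c) : PP F) = c := by simp [evR_apply]

/-- Polynomials times `2^b` as functions on `ℤ²`. -/
def jmap : PP F →ₗ[F] (ℤ × ℤ → F) where
  toFun q := fun p => (2 : F) ^ p.2 * evR p q
  map_add' q r := by
    funext p
    simp only [map_add, Pi.add_apply]
    ring
  map_smul' c q := by
    funext p
    have h : c • q = C (C c) * q := by rw [Algebra.smul_def]; rfl
    simp only [h, map_mul, evR_C, Pi.smul_apply, smul_eq_mul, RingHom.id_apply]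
    ring

omit [CharZero F] in
lemma jmap_apply (q : PP F) (p : ℤ × ℤ) : jmap q p = (2 : F) ^ p.2 * evR p q := rfl

lemma eop_jmap (n : ℤ) (q : PP F) :
    eop F n (jmap q) = jmap ((X + C (C (n : F))) * sx ((-n : ℤ) : F) q +
      (2 : F) ^ (-n) • ((C (X + C ((-n : ℤ) : F))) * syy ((-n : ℤ) : F) q)) := by
  funext p
  rw [map_add, map_smul, Pi.add_apply, Pi.smul_apply, eop_apply, jmap_apply, jmap_apply, jmap_apply,
    jmap_apply, map_mul, map_mul, evR_sx, evR_syy, smul_eq_mul]
  have h1 : evR p (X + C (C (n : F)) : PP F) = (p.1 : F) + n := by simp [evR_apply]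
  have h2 : evR p (C (X + C ((-n : ℤ) : F)) : PP F) = (p.2 : F) - n := by
    simp [evR_apply, sub_eq_add_neg]
  rw [h1, h2]
  simp only
  rw [sub_eq_add_neg p.2 n, zpow_add₀ (two_ne_zero : (2 : F) ≠ 0)]
  ring

lemma jmap_injective : Function.Injective (jmap : PP F →ₗ[F] (ℤ × ℤ → F)) := by
  rw [← LinearMap.ker_eq_bot, LinearMap.ker_eq_bot']
  intro q hq
  have h1 : ∀ a b : ℤ, (q.eval (C (a : F))).eval (b : F) = 0 := by
    intro a b
    have := congrFun hq (a, b)
    rw [jmap_apply] at this
    have h2 : (2 : F) ^ b ≠ 0 := zpow_ne_zero _ two_ne_zero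
    exact (mul_eq_zero.mp this).resolve_left h2
  have h2 : ∀ a : ℤ, q.eval (C (a : F)) = 0 := by
    intro a
    apply Polynomial.eq_zero_of_infinite_isRoot
    apply Set.Infinite.mono (s := Set.range (fun k : ℤ => (k : F)))
    · rintro _ ⟨b, rfl⟩
      exact h1 a b
    · exact Set.infinite_range_of_injective Int.cast_injective
  apply Polynomial.eq_zero_of_infinite_isRoot
  apply Set.Infinite.mono (s := Set.range (fun k : ℤ => (C (k : F) : F[X])))
  · rintro _ ⟨a, rfl⟩
    exact h2 a
  · exact Set.infinite_range_of_injective (fun a b h => Int.cast_injective (C_injective h))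

omit [CharZero F] in
/-- Values at a point depend on finitely many values only. -/
lemma local_of_mem {T : Module.End F (ℤ × ℤ → F)} (hT : T ∈ Algebra.adjoin F (Set.range (eop F)))
    (p : ℤ × ℤ) : ∃ S : Finset (ℤ × ℤ), ∀ g : ℤ × ℤ → F, (∀ s ∈ S, g s = 0) → T g p = 0 := by
  classical
  induction hT using Algebra.adjoin_induction generalizing p with
  | mem x hx =>
    obtain ⟨n, rfl⟩ := hx
    refine ⟨{(p.1 - n, p.2), (p.1, p.2 - n)}, ?_⟩
    intro g hg
    rw [eop_apply, hg _ (by simp), hg _ (by simp)]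
    ring
  | algebraMap c =>
    refine ⟨{p}, ?_⟩
    intro g hg
    rw [Module.algebraMap_end_apply, Pi.smul_apply, hg p (by simp), smul_zero]
  | add x y _ _ hx hy =>
    obtain ⟨S, hS⟩ := hx p
    obtain ⟨S', hS'⟩ := hy p
    refine ⟨S ∪ S', ?_⟩
    intro g hg
    rw [LinearMap.add_apply, Pi.add_apply, hS g (fun s hs => hg s (Finset.mem_union_left _ hs)),
      hS' g (fun s hs => hg s (Finset.mem_union_right _ hs)), add_zero]
  | mul x y _ _ hx hy =>
    obtain ⟨S, hS⟩ := hx p
    choose f hf using hy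
    refine ⟨S.biUnion f, ?_⟩
    intro g hg
    rw [Module.End.mul_apply]
    apply hS
    intro s hs
    apply hf
    intro t ht
    exact hg t (Finset.mem_biUnion.mpr ⟨s, hs, ht⟩)

lemma jmap_stable {T : Module.End F (ℤ × ℤ → F)}
    (hT : T ∈ Algebra.adjoin F (Set.range (eop F))) (q : PP F) : ∃ q', T (jmap q) = jmap q' := by
  induction hT using Algebra.adjoin_induction generalizing q with
  | mem x hx =>
    obtain ⟨n, rfl⟩ := hx
    exact ⟨_, eop_jmap n q⟩
  | algebraMap c =>
    exact ⟨c • q, by rw [Module.algebraMap_end_apply, map_smul]⟩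
  | add x y _ _ hx hy =>
    obtain ⟨q1, h1⟩ := hx q
    obtain ⟨q2, h2⟩ := hy q
    exact ⟨q1 + q2, by rw [LinearMap.add_apply, h1, h2, map_add]⟩
  | mul x y _ _ hx hy =>
    obtain ⟨q1, h1⟩ := hy q
    obtain ⟨q2, h2⟩ := hx q1
    exact ⟨q2, by rw [Module.End.mul_apply, h1, h2]⟩

/-- Interpolation. -/
lemma interpolate (S : Finset (ℤ × ℤ)) (g : ℤ × ℤ → F) : ∃ q : PP F, ∀ s ∈ S, jmap q s = g s := by
  classical
  -- a polynomial vanishing on the other points
  have h1 : ∀ s0 : ℤ × ℤ, ∃ q : PP F, evR s0 q ≠ 0 ∧ ∀ s ∈ S, s ≠ s0 → evR s q = 0 := by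
    intro s0
    refine ⟨∏ s ∈ S.erase s0, (if s.1 = s0.1 then C (X - C (s.2 : F)) else X - C (C (s.1 : F))),
      ?_, ?_⟩
    · rw [map_prod, Finset.prod_ne_zero_iff]
      intro s hs
      rw [Finset.mem_erase] at hs
      split_ifs with h
      · have h2 : s0.2 ≠ s.2 := by
          intro h2
          exact hs.1 (Prod.ext h h2.symm)
        have h3 : evR s0 (C (X - C (s.2 : F)) : PP F) = (s0.2 : F) - s.2 := by simp [evR_apply]
        rw [h3, sub_ne_zero]
        exact_mod_cast h2
      · have h3 : evR s0 (X - C (C (s.1 : F)) : PP F) = (s0.1 : F) - s.1 := by simp [evR_apply]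
        rw [h3, sub_ne_zero]
        intro h4
        exact h (by exact_mod_cast h4.symm)
    · intro s hs hne
      rw [map_prod]
      apply Finset.prod_eq_zero (Finset.mem_erase.mpr ⟨hne, hs⟩)
      split_ifs with h
      · simp [evR_apply]
      · simp [evR_apply]
  choose f hf1 hf2 using h1
  refine ⟨∑ s ∈ S, (g s * (2 : F) ^ (-s.2) * (evR s (f s))⁻¹) • f s, ?_⟩
  intro s hs
  rw [map_sum, Finset.sum_apply, Finset.sum_eq_single s]
  · rw [map_smul, Pi.smul_apply, jmap_apply, smul_eq_mul]
    have h3 := hf1 s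
    have h4 : (2 : F) ^ s.2 ≠ 0 := zpow_ne_zero _ two_ne_zero
    rw [zpow_neg]
    field_simp
  · intro t _ hts
    rw [map_smul, Pi.smul_apply, jmap_apply, hf2 t s hs hts.symm, mul_zero, smul_zero]
  · intro h; exact absurd hs h

/-- An operator that kills all polynomials times `2^b` is zero. -/
lemma eq_zero_of_jmap {T : Module.End F (ℤ × ℤ → F)}
    (hT : T ∈ Algebra.adjoin F (Set.range (eop F))) (h : ∀ q : PP F, T (jmap q) = 0) : T = 0 := by
  apply LinearMap.ext
  intro g
  funext p
  obtain ⟨S, hS⟩ := local_of_mem hT p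
  obtain ⟨q, hq⟩ := interpolate S g
  have h1 := hS (g - jmap q) (fun s hs => by rw [Pi.sub_apply, hq s hs, sub_self])
  rw [map_sub, h q, sub_zero] at h1
  exact h1

/-- The kernel of the action is the annihilator of a simple module. -/
theorem primitive {U : Type} [Ring U] [Algebra F U] (ψ : U →ₐ[F] Module.End F (ℤ × ℤ → F))
    (h1 : ∀ n, ∃ x, ψ x = eop F n) (h2 : ∀ u, ψ u ∈ Algebra.adjoin F (Set.range (eop F))) :
    ∃ (M : Type) (_ : AddCommGroup M) (_ : Module U M), IsSimpleModule U M ∧
      ∀ a : U, ψ a = 0 ↔ ∀ x : M, a • x = 0 := by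
  let mod : Module U (ℤ × ℤ → F) := Module.compHom (ℤ × ℤ → F) (ψ : U →+* Module.End F (ℤ × ℤ → F))
  have hsmul : ∀ (u : U) (g : ℤ × ℤ → F), u • g = ψ u g := fun _ _ => rfl
  let Mp : Submodule U (ℤ × ℤ → F) :=
    { carrier := Set.range (jmap : PP F → (ℤ × ℤ → F))
      add_mem' := by
        rintro _ _ ⟨q, rfl⟩ ⟨r, rfl⟩
        exact ⟨q + r, map_add _ _ _⟩
      zero_mem' := ⟨0, map_zero _⟩
      smul_mem' := by
        rintro u _ ⟨q, rfl⟩
        obtain ⟨q', hq'⟩ := jmap_stable (h2 u) q
        exact ⟨q', by rw [hsmul, hq']⟩ }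
  refine ⟨Mp, inferInstance, inferInstance, ?_, ?_⟩
  · have hnt : Nontrivial Mp := by
      refine ⟨⟨⟨jmap 1, 1, rfl⟩, 0, ?_⟩⟩
      intro h
      have h3 : jmap (1 : PP F) = 0 := congrArg Subtype.val h
      exact one_ne_zero (jmap_injective (h3.trans (map_zero _).symm))
    have hsimple : ∀ N : Submodule U Mp, N = ⊥ ∨ N = ⊤ := by
      intro N
      by_cases hN : N = ⊥
      · exact Or.inl hN
      right
      let N' : Submodule F (PP F) :=
        { carrier := {q | (⟨jmap q, q, rfl⟩ : Mp) ∈ N}
          add_mem' := by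
            intro q r hq hr
            have := N.add_mem hq hr
            change (⟨jmap (q + r), _, rfl⟩ : Mp) ∈ N
            convert this using 1
            apply Subtype.ext
            exact map_add _ _ _
          zero_mem' := by
            have := N.zero_mem
            change (⟨jmap 0, _, rfl⟩ : Mp) ∈ N
            convert this using 1
            apply Subtype.ext
            exact map_zero _
          smul_mem' := by
            intro c q hq
            have := N.smul_mem (algebraMap F U c) hq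
            change (⟨jmap (c • q), _, rfl⟩ : Mp) ∈ N
            convert this using 1
            apply Subtype.ext
            change jmap (c • q) = ψ (algebraMap F U c) (jmap q)
            rw [AlgHom.commutes, Module.algebraMap_end_apply, map_smul] }
      have hN' : N' = ⊤ := by
        apply subspace_eq_top
        · intro q hq k
          obtain ⟨x, hx⟩ := h1 (-(k : ℤ))
          have h3 := N.smul_mem x hq
          change (⟨jmap _, _, rfl⟩ : Mp) ∈ N
          convert h3 using 1
          apply Subtype.ext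
          change _ = ψ x (jmap q)
          rw [hx, eop_jmap]
          simp only [neg_neg, Int.cast_natCast, Int.cast_neg, C_neg, zpow_natCast]
          rw [sub_eq_add_neg]
        · obtain ⟨x, hx, hx0⟩ := (Submodule.ne_bot_iff N).mp hN
          obtain ⟨_, ⟨q, rfl⟩⟩ := x
          refine ⟨q, hx, ?_⟩
          rintro rfl
          apply hx0
          apply Subtype.ext
          exact map_zero _
      rw [eq_top_iff]
      rintro ⟨_, ⟨q, rfl⟩⟩ _
      have h3 : q ∈ N' := by rw [hN']; trivial
      exact h3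
    exact { exists_pair_ne := ⟨⊥, ⊤, bot_ne_top⟩, eq_bot_or_eq_top := hsimple }
  · intro a
    constructor
    · rintro ha ⟨_, ⟨q, rfl⟩⟩
      apply Subtype.ext
      change ψ a (jmap q) = 0
      rw [ha, LinearMap.zero_apply]
    · intro h
      apply eq_zero_of_jmap (h2 a)
      intro q
      exact congrArg Subtype.val (h ⟨jmap q, q, rfl⟩)

end

end Pool.Agent.N88.WV
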