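import Pool.Agent.N88.WV.Defs

/-!
# The representation of the Witt algebra on functions on `ℤ²`
-/

set_option autoImplicit false

namespace Pool.Agent.N88.WV

noncomputable section

variable (F : Type) [Field F]

/-- The operator of `e_n` on functions on `ℤ²`: densities of weights `2` and `0` at the two points. -/
def eop (n : ℤ) : Module.End F (ℤ × ℤ → F) where
  toFun g := fun p => ((p.1 : F) + n) * g (p.1 - n, p.2) + ((p.2 : F) - n) * g (p.1, p.2 - n)
  map_add' g h := by
    funext p
    simp only [Pi.add_apply]
    ring
  map_smul' c g := by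
    funext p
    simp only [Pi.smul_apply, smul_eq_mul, RingHom.id_apply]
    ring

lemma eop_apply (n : ℤ) (g : ℤ × ℤ → F) (p : ℤ × ℤ) :
    eop F n g p = ((p.1 : F) + n) * g (p.1 - n, p.2) + ((p.2 : F) - n) * g (p.1, p.2 - n) := rfl

lemma eop_comm (m n : ℤ) :
    eop F m * eop F n - eop F n * eop F m = ((n - m : ℤ) : F) • eop F (m + n) := by
  apply LinearMap.ext
  intro g
  funext p
  simp only [LinearMap.sub_apply, Module.End.mul_apply, LinearMap.smul_apply, Pi.sub_apply,
    Pi.smul_apply, smul_eq_mul, eop_apply]
  have h1 : p.1 - m - n = p.1 - (m + n) := by ring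
  have h2 : p.1 - n - m = p.1 - (m + n) := by ring
  have h3 : p.2 - m - n = p.2 - (m + n) := by ring
  have h4 : p.2 - n - m = p.2 - (m + n) := by ring
  rw [h1, h2, h3, h4]
  push_cast
  ring

lemma uea_adjoin (L : Type) [LieRing L] [LieAlgebra F L] :
    Algebra.adjoin F (Set.range (UniversalEnvelopingAlgebra.ι F (L := L))) = ⊤ := by
  rw [eq_top_iff]
  intro x _
  obtain ⟨y, rfl⟩ : ∃ y, UniversalEnvelopingAlgebra.mkAlgHom F L y = x :=
    Quotient.mk_surjective x
  have h1 : y ∈ Algebra.adjoin F (Set.range (TensorAlgebra.ι F (M := L))) := by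
    rw [TensorAlgebra.adjoin_range_ι]
    trivial
  have h2 := Subalgebra.mem_map.mpr
    ⟨y, h1, (rfl : (UniversalEnvelopingAlgebra.mkAlgHom F L) y = _)⟩
  rw [AlgHom.map_adjoin, ← Set.range_comp] at h2
  exact h2

variable {F}

lemma exists_lift {L : Type} [LieRing L] [LieAlgebra F L] {V : Type} [AddCommGroup V] [Module F V]
    (r : L →ₗ[F] Module.End F V) (hr : ∀ x y, r ⁅x, y⁆ = r x * r y - r y * r x) :
    ∃ ψ : UniversalEnvelopingAlgebra F L →ₐ[F] Module.End F V,
      ∀ x, ψ (UniversalEnvelopingAlgebra.ι F x) = r x := by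
  let _ : LieRing (Module.End F V) := LieRing.ofAssociativeRing
  let r' : L →ₗ⁅F⁆ Module.End F V :=
    { r with
      map_lie' := by
        intro x y
        rw [LieRing.of_associative_ring_bracket]
        exact hr x y }
  exact ⟨UniversalEnvelopingAlgebra.lift F r', fun x =>
    UniversalEnvelopingAlgebra.lift_ι_apply F r' x⟩

/-- A linear map respects brackets if it does so on a basis. -/
lemma bracket_of_basis {L : Type} [LieRing L] [LieAlgebra F L] {V : Type} [AddCommGroup V]
    [Module F V] {κ : Type} (b : Module.Basis κ F L) (r : L →ₗ[F] Module.End F V)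
    (hr : ∀ i j, r ⁅b i, b j⁆ = r (b i) * r (b j) - r (b j) * r (b i)) (x y : L) :
    r ⁅x, y⁆ = r x * r y - r y * r x := by
  have hx : x ∈ Submodule.span F (Set.range b) := by rw [b.span_eq]; trivial
  have hy : y ∈ Submodule.span F (Set.range b) := by rw [b.span_eq]; trivial
  induction hx using Submodule.span_induction with
  | mem x hx =>
    obtain ⟨i, rfl⟩ := hx
    induction hy using Submodule.span_induction with
    | mem y hy =>
      obtain ⟨j, rfl⟩ := hy
      exact hr i j
    | zero => simp
    | add y z _ _ hy hz => rw [lie_add, map_add, hy, hz, map_add, mul_add, add_mul]; abel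
    | smul a y _ hy => rw [lie_smul, map_smul, hy, map_smul, mul_smul_comm, smul_mul_assoc, smul_sub]
  | zero => simp
  | add x z _ _ hx hz => rw [add_lie, map_add, hx, hz, map_add, mul_add, add_mul]; abel
  | smul a x _ hx => rw [smul_lie, map_smul, hx, map_smul, mul_smul_comm, smul_mul_assoc, smul_sub]

/-- Generators of the enveloping algebra of the Witt algebra or the Virasoro algebra, and their
representations with the centre acting by zero. -/
theorem exists_gens {L : Type} [LieRing L] [LieAlgebra F L] (hL : IsWitt F L ∨ IsVirasoro F L) :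
    ∃ g : Option ℤ → UniversalEnvelopingAlgebra F L, Algebra.adjoin F (Set.range g) = ⊤ ∧
      ∀ (V : Type) [AddCommGroup V] [Module F V] (f : ℤ → Module.End F V),
        (∀ m n, f m * f n - f n * f m = ((n - m : ℤ) : F) • f (m + n)) →
        ∃ ψ : UniversalEnvelopingAlgebra F L →ₐ[F] Module.End F V,
          (∀ n, ψ (g (some n)) = f n) ∧ ψ (g none) = 0 := by
  have span_case : ∀ {κ : Type} (b : Module.Basis κ F L) (g : Option ℤ → UniversalEnvelopingAlgebra F L),
      (∀ i, UniversalEnvelopingAlgebra.ι F (b i) ∈ Set.range g) →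
      Algebra.adjoin F (Set.range g) = ⊤ := by
    intro κ b g hg
    rw [eq_top_iff, ← uea_adjoin F L, Algebra.adjoin_le_iff]
    rintro _ ⟨x, rfl⟩
    have hx : x ∈ Submodule.span F (Set.range b) := by rw [b.span_eq]; trivial
    induction hx using Submodule.span_induction with
    | mem y hy =>
      obtain ⟨i, rfl⟩ := hy
      exact Algebra.subset_adjoin (hg i)
    | zero => rw [map_zero]; exact Subalgebra.zero_mem _
    | add y z _ _ hy hz => rw [map_add]; exact Subalgebra.add_mem _ hy hz
    | smul a y _ hy => rw [map_smul]; exact Subalgebra.smul_mem _ hy _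
  rcases hL with ⟨e, he⟩ | ⟨b, hb1, hb2⟩
  · refine ⟨fun o => o.elim 0 (fun n => UniversalEnvelopingAlgebra.ι F (e n)), ?_, ?_⟩
    · exact span_case e _ (fun i => ⟨some i, rfl⟩)
    · intro V _ _ f hf
      obtain ⟨ψ, hψ⟩ := exists_lift (e.constr F f) (bracket_of_basis e (e.constr F f) (by
        intro i j
        rw [he, map_smul, e.constr_basis, e.constr_basis, e.constr_basis, hf]))
      refine ⟨ψ, ?_, ?_⟩
      · intro n
        change ψ (UniversalEnvelopingAlgebra.ι F (e n)) = f n
        rw [hψ, e.constr_basis]
      · exact map_zero ψ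
  · refine ⟨fun o => UniversalEnvelopingAlgebra.ι F (b o), ?_, ?_⟩
    · exact span_case b _ (fun i => ⟨i, rfl⟩)
    · intro V _ _ f hf
      let f' : Option ℤ → Module.End F V := fun o => o.elim 0 f
      obtain ⟨ψ, hψ⟩ := exists_lift (b.constr F f') (bracket_of_basis b (b.constr F f') (by
        intro i j
        rw [b.constr_basis, b.constr_basis]
        cases i with
        | none => rw [hb1]; simp [f']
        | some i =>
          cases j with
          | none =>
            have h1 : ⁅b (some i), b none⁆ = 0 := by rw [← lie_skew, hb1, neg_zero]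
            rw [h1]; simp [f']
          | some j =>
            have h2 : (b.constr F f') (if i + j = 0 then (((i ^ 3 - i : ℤ) : F) / 12) • b none
                else 0) = 0 := by
              split_ifs
              · rw [map_smul, b.constr_basis]; simp [f']
              · simp
            rw [hb2, map_add, h2, add_zero, map_smul, b.constr_basis]
            exact (hf i j).symm))
      refine ⟨ψ, ?_, ?_⟩
      · intro n
        rw [hψ, b.constr_basis]; rfl
      · rw [hψ, b.constr_basis]; rfl

end

end Pool.Agent.N88.WV
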