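import Mathlib

/-!
# Operators with polynomial coefficients: shift operators on a lattice

`Sy F I` is the space of finite sums `∑ q_γ(ν) [shift by γ]` with `q_γ` polynomials in the coordinates
of the lattice point `ν ∈ ℤ^I`.
-/

set_option autoImplicit false

namespace Pool.Agent.N88.WV

open Finsupp MvPolynomial

noncomputable section

variable (F : Type) [Field F] (I : Type)

/-- Symbols: finitely many shifts with polynomial coefficients. -/
abbrev Sy : Type := (I → ℤ) →₀ MvPolynomial I F

variable {F I}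

/-- A lattice point as a point of `F^I`. -/
def cst (F : Type) [Field F] {I : Type} (ν : I → ℤ) : I → F := fun i => (ν i : F)

/-- The operator of a symbol on finitely supported functions on the lattice. -/
def Op (q : Sy F I) : Module.End F ((I → ℤ) →₀ F) :=
  Finsupp.linearCombination F (fun ν : I → ℤ =>
    q.sum fun γ p => Finsupp.single (ν + γ) (MvPolynomial.eval (cst F ν) p))

lemma Op_single (q : Sy F I) (ν : I → ℤ) :
    Op q (Finsupp.single ν 1) =
      q.sum fun γ p => Finsupp.single (ν + γ) (MvPolynomial.eval (cst F ν) p) := by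
  simp [Op]

lemma Op_single_single (γ : I → ℤ) (p : MvPolynomial I F) (ν : I → ℤ) :
    Op (Finsupp.single γ p) (Finsupp.single ν 1) =
      Finsupp.single (ν + γ) (MvPolynomial.eval (cst F ν) p) := by
  rw [Op_single, Finsupp.sum_single_index]; simp

lemma Op_single_apply (q : Sy F I) (ν γ : I → ℤ) :
    Op q (Finsupp.single ν 1) (ν + γ) = MvPolynomial.eval (cst F ν) (q γ) := by
  classical
  rw [Op_single, Finsupp.sum_apply, Finsupp.sum]
  simp only [Finsupp.single_apply]
  by_cases h : γ ∈ q.support
  · rw [Finset.sum_eq_single γ]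
    · simp
    · intro b _ hb
      rw [if_neg]
      intro h'
      exact hb (add_left_cancel h')
    · intro h'; exact absurd h h'
  · rw [Finsupp.notMem_support_iff.mp h, map_zero]
    apply Finset.sum_eq_zero
    intro b hb
    rw [if_neg]
    intro h'
    exact h (by rw [← add_left_cancel h']; exact hb)

lemma Op_add (q r : Sy F I) : Op (q + r) = Op q + Op r := by
  apply Finsupp.lhom_ext'
  intro ν
  apply LinearMap.ext_ring
  simp only [LinearMap.comp_apply, Finsupp.lsingle_apply, LinearMap.add_apply]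
  rw [Op_single, Op_single, Op_single, Finsupp.sum_add_index']
  · intro a; simp
  · intro a b c; simp

lemma Op_zero : Op (0 : Sy F I) = 0 := by
  apply Finsupp.lhom_ext'
  intro ν
  apply LinearMap.ext_ring
  simp [Op_single]

lemma Op_smul (c : F) (q : Sy F I) : Op (c • q) = c • Op q := by
  apply Finsupp.lhom_ext'
  intro ν
  apply LinearMap.ext_ring
  simp only [LinearMap.comp_apply, Finsupp.lsingle_apply, LinearMap.smul_apply]
  rw [Op_single, Op_single, Finsupp.sum_smul_index', Finsupp.smul_sum]
  · apply Finsupp.sum_congr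
    intro x _
    simp [MvPolynomial.smul_eval]
  · intro a; simp

/-- Translation of a polynomial. -/
def shf (γ : I → ℤ) : MvPolynomial I F →ₐ[F] MvPolynomial I F :=
  MvPolynomial.aeval (fun i => MvPolynomial.X i + MvPolynomial.C (γ i : F))

lemma eval_shf (γ ν : I → ℤ) (p : MvPolynomial I F) :
    MvPolynomial.eval (cst F ν) (shf γ p) = MvPolynomial.eval (cst F (ν + γ)) p := by
  induction p using MvPolynomial.induction_on with
  | C a => simp [shf]
  | add p q hp hq => simp [map_add, hp, hq]
  | mul_X p i hp => simp [map_mul, hp]; left; simp [shf, cst]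

lemma shf_shf (γ δ : I → ℤ) (p : MvPolynomial I F) : shf γ (shf δ p) = shf (γ + δ) p := by
  induction p using MvPolynomial.induction_on with
  | C a => simp [shf]
  | add p q hp hq => simp [map_add, hp, hq]
  | mul_X p i hp =>
    simp only [map_mul, hp]
    congr 1
    simp [shf]; ring

lemma shf_zero (p : MvPolynomial I F) : shf 0 p = p := by
  induction p using MvPolynomial.induction_on with
  | C a => simp [shf]
  | add p q hp hq => simp [map_add, hp, hq]
  | mul_X p i hp => simp only [map_mul, hp]; simp [shf]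

lemma totalDegree_shf_le (γ : I → ℤ) (p : MvPolynomial I F) :
    (shf γ p).totalDegree ≤ p.totalDegree := by
  classical
  have h : shf γ p = ∑ s ∈ p.support, MvPolynomial.C (p.coeff s) *
      ∏ i ∈ s.support, (MvPolynomial.X i + MvPolynomial.C (γ i : F)) ^ s i := by
    rw [shf, MvPolynomial.aeval_def, MvPolynomial.eval₂_eq]
    rfl
  rw [h]
  apply MvPolynomial.totalDegree_finsetSum_le
  intro s hs
  refine (MvPolynomial.totalDegree_mul _ _).trans ?_
  rw [MvPolynomial.totalDegree_C, zero_add]
  refine (MvPolynomial.totalDegree_finsetProd _ _).trans ?_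
  refine le_trans ?_ (MvPolynomial.le_totalDegree hs)
  rw [Finsupp.sum]
  apply Finset.sum_le_sum
  intro i _
  refine (MvPolynomial.totalDegree_pow _ _).trans ?_
  refine le_trans (Nat.mul_le_mul_left _ ?_) (mul_one _).le
  refine (MvPolynomial.totalDegree_add _ _).trans ?_
  rw [MvPolynomial.totalDegree_X, MvPolynomial.totalDegree_C]
  exact le_rfl

lemma totalDegree_shf (γ : I → ℤ) (p : MvPolynomial I F) :
    (shf γ p).totalDegree = p.totalDegree := by
  apply le_antisymm (totalDegree_shf_le γ p)
  have h := totalDegree_shf_le (-γ) (shf γ p)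
  rwa [shf_shf, neg_add_cancel, shf_zero] at h

lemma shf_ne_zero (γ : I → ℤ) {p : MvPolynomial I F} (hp : p ≠ 0) : shf γ p ≠ 0 := by
  intro h
  apply hp
  have := congrArg (shf (-γ)) h
  rwa [shf_shf, neg_add_cancel, shf_zero, map_zero] at this

/-- The product of symbols. -/
def star (q r : Sy F I) : Sy F I :=
  q.sum fun γ p => r.sum fun γ' p' => Finsupp.single (γ + γ') (shf γ' p * p')

lemma Op_star (q r : Sy F I) : Op (star q r) = Op q * Op r := by
  classical
  apply Finsupp.lhom_ext'
  intro ν
  apply LinearMap.ext_ring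
  simp only [LinearMap.comp_apply, Finsupp.lsingle_apply, Module.End.mul_apply]
  have h1 : ∀ (s : Finset (I → ℤ)) (f : (I → ℤ) → Sy F I), Op (∑ i ∈ s, f i) = ∑ i ∈ s, Op (f i) := by
    intro s f
    induction s using Finset.induction_on with
    | empty => simp [Op_zero]
    | insert a s ha ih => rw [Finset.sum_insert ha, Finset.sum_insert ha, Op_add, ih]
  rw [star, Finsupp.sum, h1]
  simp only [Finsupp.sum]
  rw [LinearMap.sum_apply]
  conv_lhs =>
    enter [2, γ]
    rw [h1, LinearMap.sum_apply]
  rw [Op_single r, Finsupp.sum, map_sum, Finset.sum_comm]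
  apply Finset.sum_congr rfl
  intro δ _
  have h2 : Finsupp.single (ν + δ) (MvPolynomial.eval (cst F ν) (r δ)) =
      (MvPolynomial.eval (cst F ν) (r δ)) • Finsupp.single (ν + δ) (1 : F) := by
    simp
  rw [h2, map_smul, Op_single, Finsupp.sum, Finset.smul_sum]
  apply Finset.sum_congr rfl
  intro γ _
  rw [Op_single_single, map_mul, eval_shf]
  rw [Finsupp.smul_single, smul_eq_mul, mul_comm]
  congr 1
  abel

open Classical in
lemma star_apply (q r : Sy F I) (ε : I → ℤ) :
    star q r ε = ∑ x ∈ (q.support ×ˢ r.support).filter (fun x => x.1 + x.2 = ε),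
      shf x.2 (q x.1) * r x.2 := by
  classical
  rw [star, Finsupp.sum_apply, Finset.sum_filter, Finset.sum_product, Finsupp.sum]
  apply Finset.sum_congr rfl
  intro γ _
  rw [Finsupp.sum_apply, Finsupp.sum]
  apply Finset.sum_congr rfl
  intro δ _
  rw [Finsupp.single_apply]

lemma star_support_subset (q r : Sy F I) (ε : I → ℤ) (h : star q r ε ≠ 0) :
    ∃ γ ∈ q.support, ∃ δ ∈ r.support, γ + δ = ε := by
  classical
  rw [star_apply] at h
  obtain ⟨x, hx, -⟩ := Finset.exists_ne_zero_of_sum_ne_zero h
  rw [Finset.mem_filter, Finset.mem_product] at hx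
  exact ⟨x.1, hx.1.1, x.2, hx.1.2, hx.2⟩

lemma totalDegree_star_le (q r : Sy F I) (d e : ℕ) (hq : ∀ γ, (q γ).totalDegree ≤ d)
    (hr : ∀ γ, (r γ).totalDegree ≤ e) (ε : I → ℤ) : (star q r ε).totalDegree ≤ d + e := by
  classical
  rw [star_apply]
  apply MvPolynomial.totalDegree_finsetSum_le
  intro x _
  refine (MvPolynomial.totalDegree_mul _ _).trans ?_
  rw [totalDegree_shf]
  exact add_le_add (hq _) (hr _)

/-- The extreme values of an additive function on the supports add up. -/
lemma star_extreme (ω : (I → ℤ) →+ ℤ) (q r : Sy F I) (hq : q ≠ 0) (hr : r ≠ 0) :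
    ∃ γ ∈ q.support, ∃ δ ∈ r.support, star q r (γ + δ) ≠ 0 ∧
      (∀ γ' ∈ q.support, ω γ' ≤ ω γ) ∧ (∀ δ' ∈ r.support, ω δ' ≤ ω δ) := by
  classical
  have hq' : q.support.Nonempty := Finsupp.support_nonempty_iff.mpr hq
  have hr' : r.support.Nonempty := Finsupp.support_nonempty_iff.mpr hr
  obtain ⟨γm, hγm, hγmax⟩ := Finset.exists_max_image q.support ω hq'
  obtain ⟨δm, hδm, hδmax⟩ := Finset.exists_max_image r.support ω hr'
  obtain ⟨γ, hγ, δ, hδ, hu⟩ := UniqueSums.uniqueAdd_of_nonempty
    (A := q.support.filter (fun x => ω x = ω γm)) (B := r.support.filter (fun x => ω x = ω δm))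
    ⟨γm, Finset.mem_filter.mpr ⟨hγm, rfl⟩⟩
    ⟨δm, Finset.mem_filter.mpr ⟨hδm, rfl⟩⟩
  rw [Finset.mem_filter] at hγ hδ
  refine ⟨γ, hγ.1, δ, hδ.1, ?_, ?_, ?_⟩
  · rw [star_apply, Finset.sum_eq_single (γ, δ)]
    · exact mul_ne_zero (shf_ne_zero _ (Finsupp.mem_support_iff.mp hγ.1))
        (Finsupp.mem_support_iff.mp hδ.1)
    · rintro ⟨γ', δ'⟩ hx hne
      exfalso
      rw [Finset.mem_filter, Finset.mem_product] at hx
      obtain ⟨⟨h1, h2⟩, h3⟩ := hx
      simp only at h1 h2 h3
      have h4 := hγmax _ h1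
      have h5 := hδmax _ h2
      have h6 : ω γ' + ω δ' = ω γm + ω δm := by
        rw [← map_add, h3, map_add, hγ.2, hδ.2]
      have h7 : ω γ' = ω γm := by linarith
      have h8 : ω δ' = ω δm := by linarith
      have h9 := hu (by rw [Finset.mem_filter]; exact ⟨h1, h7⟩)
        (by rw [Finset.mem_filter]; exact ⟨h2, h8⟩) h3
      exact hne (by rw [h9.1, h9.2])
    · intro hx
      exfalso
      apply hx
      rw [Finset.mem_filter, Finset.mem_product]
      exact ⟨⟨hγ.1, hδ.1⟩, rfl⟩
  · intro γ' h; rw [hγ.2]; exact hγmax _ h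
  · intro δ' h; rw [hδ.2]; exact hδmax _ h

/-- The maximal degrees add up. -/
lemma star_degree (q r : Sy F I) (hq : q ≠ 0) (hr : r ≠ 0) :
    ∃ γ ∈ q.support, ∃ δ ∈ r.support,
      (star q r (γ + δ)).totalDegree = (q γ).totalDegree + (r δ).totalDegree ∧
      (∀ γ' ∈ q.support, (q γ').totalDegree ≤ (q γ).totalDegree) ∧
      (∀ δ' ∈ r.support, (r δ').totalDegree ≤ (r δ).totalDegree) := by
  classical
  have hq' : q.support.Nonempty := Finsupp.support_nonempty_iff.mpr hq
  have hr' : r.support.Nonempty := Finsupp.support_nonempty_iff.mpr hr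
  obtain ⟨γm, hγm, hγmax⟩ := Finset.exists_max_image q.support (fun x => (q x).totalDegree) hq'
  obtain ⟨δm, hδm, hδmax⟩ := Finset.exists_max_image r.support (fun x => (r x).totalDegree) hr'
  obtain ⟨γ, hγ, δ, hδ, hu⟩ := UniqueSums.uniqueAdd_of_nonempty
    (A := q.support.filter (fun x => (q x).totalDegree = (q γm).totalDegree))
    (B := r.support.filter (fun x => (r x).totalDegree = (r δm).totalDegree))
    ⟨γm, Finset.mem_filter.mpr ⟨hγm, rfl⟩⟩
    ⟨δm, Finset.mem_filter.mpr ⟨hδm, rfl⟩⟩
  rw [Finset.mem_filter] at hγ hδ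
  refine ⟨γ, hγ.1, δ, hδ.1, ?_, ?_, ?_⟩
  · rw [star_apply]
    have hmem : ((γ, δ) : (I → ℤ) × (I → ℤ)) ∈
        (q.support ×ˢ r.support).filter (fun x => x.1 + x.2 = γ + δ) := by
      rw [Finset.mem_filter, Finset.mem_product]
      exact ⟨⟨hγ.1, hδ.1⟩, rfl⟩
    rw [← Finset.add_sum_erase _ _ hmem]
    have hmain : (shf δ (q γ) * r δ).totalDegree = (q γ).totalDegree + (r δ).totalDegree := by
      rw [MvPolynomial.totalDegree_mul_of_isDomain (shf_ne_zero _ (Finsupp.mem_support_iff.mp hγ.1))
        (Finsupp.mem_support_iff.mp hδ.1), totalDegree_shf]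
    by_cases hD : (q γ).totalDegree + (r δ).totalDegree = 0
    · have hempty : ((q.support ×ˢ r.support).filter (fun x => x.1 + x.2 = γ + δ)).erase (γ, δ)
          = ∅ := by
        rw [Finset.eq_empty_iff_forall_notMem]
        rintro ⟨γ', δ'⟩ hx
        rw [Finset.mem_erase, Finset.mem_filter, Finset.mem_product] at hx
        obtain ⟨hne, ⟨h1, h2⟩, h3⟩ := hx
        simp only at h1 h2 h3
        have h4 := hγmax _ h1
        have h5 := hδmax _ h2
        have h9 := hu (by rw [Finset.mem_filter]; exact ⟨h1, by omega⟩)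
          (by rw [Finset.mem_filter]; exact ⟨h2, by omega⟩) h3
        exact hne (by rw [h9.1, h9.2])
      rw [hempty, Finset.sum_empty, add_zero, hmain]
    · rw [MvPolynomial.totalDegree_add_eq_left_of_totalDegree_lt, hmain]
      rw [hmain]
      refine lt_of_le_of_lt (b := (q γ).totalDegree + (r δ).totalDegree - 1) ?_ (by omega)
      apply MvPolynomial.totalDegree_finsetSum_le
      rintro ⟨γ', δ'⟩ hx
      rw [Finset.mem_erase, Finset.mem_filter, Finset.mem_product] at hx
      obtain ⟨hne, ⟨h1, h2⟩, h3⟩ := hx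
      simp only at h1 h2 h3
      have h4 := hγmax _ h1
      have h5 := hδmax _ h2
      refine (MvPolynomial.totalDegree_mul _ _).trans ?_
      rw [totalDegree_shf]
      simp only at h4 h5 ⊢
      by_contra hcon
      have h9 := hu (by rw [Finset.mem_filter]; exact ⟨h1, by omega⟩)
          (by rw [Finset.mem_filter]; exact ⟨h2, by omega⟩) h3
      exact hne (by rw [h9.1, h9.2])
  · intro γ' h; rw [hγ.2]; exact hγmax _ h
  · intro δ' h; rw [hδ.2]; exact hδmax _ h

end

end Pool.Agent.N88.WV
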