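import Pool.Agent.N88.WV.Sym
import Pool.Agent.N88.WV.Defs

/-!
# Symbols of the operators in `Ã_{m+1}`
-/

set_option autoImplicit false

namespace Pool.Agent.N88.WV

open Finsupp MvPolynomial

noncomputable section

variable {F : Type} [Field F] {m : ℕ}

/-- Exponents as lattice points. -/
def emb {m : ℕ} (p : ℤ × (Fin m → ℕ)) : Option (Fin m) → ℤ :=
  fun i => i.elim p.1 (fun j => (p.2 j : ℤ))

@[simp] lemma emb_none (p : ℤ × (Fin m → ℕ)) : emb p none = p.1 := rfl
@[simp] lemma emb_some (p : ℤ × (Fin m → ℕ)) (j : Fin m) : emb p (some j) = (p.2 j : ℤ) := rfl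

lemma emb_injective : Function.Injective (emb : ℤ × (Fin m → ℕ) → Option (Fin m) → ℤ) := by
  intro p q h
  have h1 := congrFun h none
  simp only [emb_none] at h1
  refine Prod.ext h1 ?_
  funext j
  have h2 := congrFun h (some j)
  simp only [emb_some] at h2
  exact_mod_cast h2

/-- The operator `Z` on `F[t^{±1}, s]` has the symbol `q`. -/
def HasSym (Z : Module.End F (PolySp F m)) (q : Sy F (Option (Fin m))) : Prop :=
  ∀ x : PolySp F m, Finsupp.mapDomain emb (Z x) = Op q (Finsupp.mapDomain emb x)

lemma hasSym_iff (Z : Module.End F (PolySp F m)) (q : Sy F (Option (Fin m))) :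
    HasSym Z q ↔ ∀ p : ℤ × (Fin m → ℕ),
      Finsupp.mapDomain emb (Z (Finsupp.single p 1)) = Op q (Finsupp.single (emb p) 1) := by
  constructor
  · intro h p
    rw [h, Finsupp.mapDomain_single]
  · intro h x
    induction x using Finsupp.induction_linear with
    | zero => simp
    | add f g hf hg => rw [map_add, Finsupp.mapDomain_add, hf, hg, Finsupp.mapDomain_add, map_add]
    | single p c =>
      have h1 : (Finsupp.single p c : PolySp F m) = c • Finsupp.single p 1 := by simp
      rw [h1, map_smul, Finsupp.mapDomain_smul, h, Finsupp.mapDomain_smul, Finsupp.mapDomain_single,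
        map_smul]

lemma HasSym.add {Z W : Module.End F (PolySp F m)} {q r : Sy F (Option (Fin m))}
    (hZ : HasSym Z q) (hW : HasSym W r) : HasSym (Z + W) (q + r) := by
  intro x
  rw [LinearMap.add_apply, Finsupp.mapDomain_add, hZ, hW, Op_add, LinearMap.add_apply]

lemma HasSym.smul {Z : Module.End F (PolySp F m)} {q : Sy F (Option (Fin m))} (c : F)
    (hZ : HasSym Z q) : HasSym (c • Z) (c • q) := by
  intro x
  rw [LinearMap.smul_apply, Finsupp.mapDomain_smul, hZ, Op_smul, LinearMap.smul_apply]

lemma HasSym.mul {Z W : Module.End F (PolySp F m)} {q r : Sy F (Option (Fin m))}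
    (hZ : HasSym Z q) (hW : HasSym W r) : HasSym (Z * W) (star q r) := by
  intro x
  rw [Module.End.mul_apply, hZ, hW, Op_star, Module.End.mul_apply]

lemma HasSym.one : HasSym (1 : Module.End F (PolySp F m))
    (Finsupp.single 0 (1 : MvPolynomial (Option (Fin m)) F)) := by
  rw [hasSym_iff]
  intro p
  rw [Op_single_single]
  simp

lemma hasSym_tPow (j : ℤ) : HasSym (tPow F m j) (Finsupp.single (Pi.single none j) 1) := by
  rw [hasSym_iff]
  intro p
  rw [Op_single_single, tPow, Finsupp.linearCombination_single, one_smul,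
    Finsupp.mapDomain_single]
  congr 1
  · funext i
    cases i with
    | none => simp
    | some i => simp
  · simp

lemma hasSym_dt : HasSym (dt F m) (Finsupp.single (Pi.single none (-1)) (X none)) := by
  rw [hasSym_iff]
  intro p
  rw [Op_single_single, dt, Finsupp.linearCombination_single, one_smul,
    Finsupp.mapDomain_single]
  congr 1
  · funext i
    cases i with
    | none => simp [sub_eq_add_neg]
    | some i => simp
  · simp [cst]

lemma hasSym_sMul (j : Fin m) :
    HasSym (sMul F m j) (Finsupp.single (Pi.single (some j) 1) 1) := by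
  rw [hasSym_iff]
  intro p
  rw [Op_single_single, sMul, Finsupp.linearCombination_single, one_smul,
    Finsupp.mapDomain_single]
  congr 1
  · funext i
    cases i with
    | none => simp
    | some i =>
      by_cases h : i = j
      · subst h; simp
      · simp [Pi.single_apply, h]
  · simp

lemma hasSym_ds (j : Fin m) :
    HasSym (ds F m j) (Finsupp.single (Pi.single (some j) (-1)) (X (some j))) := by
  rw [hasSym_iff]
  intro p
  rw [Op_single_single, ds, Finsupp.linearCombination_single, one_smul,
    Finsupp.mapDomain_single]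
  by_cases h0 : p.2 j = 0
  · simp [h0, cst]
  · congr 1
    · funext i
      cases i with
      | none => simp
      | some i =>
        by_cases h : i = j
        · subst h
          simp only [emb_some, Pi.sub_apply, Pi.single_eq_same, Pi.add_apply]
          omega
        · simp [Pi.single_apply, h]
    · simp [cst]

lemma exists_hasSym (Z : Atilde F m) : ∃ q, HasSym (Z : Module.End F (PolySp F m)) q := by
  obtain ⟨Z, hZ⟩ := Z
  change ∃ q, HasSym Z q
  induction hZ using Algebra.adjoin_induction with
  | mem x hx =>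
    rcases hx with (hx | ⟨i, rfl⟩) | ⟨i, rfl⟩
    · rcases hx with rfl | rfl | rfl
      · exact ⟨_, hasSym_tPow 1⟩
      · exact ⟨_, hasSym_tPow (-1)⟩
      · exact ⟨_, hasSym_dt⟩
    · exact ⟨_, hasSym_sMul i⟩
    · exact ⟨_, hasSym_ds i⟩
  | algebraMap c =>
    rw [Algebra.algebraMap_eq_smul_one]
    exact ⟨_, HasSym.one.smul c⟩
  | add x y _ _ hx hy =>
    obtain ⟨q, hq⟩ := hx
    obtain ⟨r, hr⟩ := hy
    exact ⟨_, hq.add hr⟩
  | mul x y _ _ hx hy =>
    obtain ⟨q, hq⟩ := hx
    obtain ⟨r, hr⟩ := hy
    exact ⟨_, hq.mul hr⟩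

/-- A polynomial that vanishes at the lattice points of a large box is zero. -/
lemma eq_zero_of_box [CharZero F] (p : MvPolynomial (Option (Fin m)) F)
    (h : ∀ ν : ℤ × (Fin m → ℕ), (∀ i, 0 ≤ emb ν i ∧ emb ν i ≤ p.totalDegree) →
      MvPolynomial.eval (cst F (emb ν)) p = 0) : p = 0 := by
  classical
  apply MvPolynomial.eq_zero_of_eval_zero_at_prod_finset p
    (fun _ => (Finset.range (p.totalDegree + 1)).image (fun n : ℕ => (n : F)))
  · intro i
    rw [Finset.card_image_of_injective _ Nat.cast_injective, Finset.card_range]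
    exact Nat.lt_succ_of_le (MvPolynomial.degreeOf_le_totalDegree p i)
  · intro x hx
    have hx' : ∀ i, ∃ n : ℕ, n ≤ p.totalDegree ∧ (n : F) = x i := by
      intro i
      obtain ⟨n, hn, hn'⟩ := Finset.mem_image.mp (hx i)
      exact ⟨n, Nat.lt_succ_iff.mp (Finset.mem_range.mp hn), hn'⟩
    choose n hn hn' using hx'
    have h1 := h ((n none : ℤ), fun j => n (some j)) (by
      intro i
      cases i with
      | none => simpa using hn none
      | some j => simpa using hn (some j))
    have h2 : cst F (emb ((n none : ℤ), fun j => n (some j))) = x := by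
      funext i
      cases i with
      | none => simp [cst, hn']
      | some j => simp [cst, hn']
    rwa [h2] at h1

lemma hasSym_zero [CharZero F] {q : Sy F (Option (Fin m))}
    (h : HasSym (0 : Module.End F (PolySp F m)) q) : q = 0 := by
  rw [hasSym_iff] at h
  ext1 γ
  apply eq_zero_of_box
  intro ν _
  rw [← Op_single_apply, ← h]
  simp

lemma HasSym.unique [CharZero F] {Z : Module.End F (PolySp F m)} {q r : Sy F (Option (Fin m))}
    (hq : HasSym Z q) (hr : HasSym Z r) : q = r := by
  have h := hq.add (hr.smul (-1))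
  have h1 : Z + (-1 : F) • Z = 0 := by
    apply LinearMap.ext; intro x
    rw [LinearMap.add_apply, LinearMap.smul_apply, LinearMap.zero_apply, neg_smul, one_smul,
      add_neg_cancel]
  rw [h1] at h
  have h2 := hasSym_zero h
  rw [neg_smul, one_smul] at h2
  exact eq_of_add_neg_eq_zero h2

lemma HasSym.eq_zero {Z : Module.End F (PolySp F m)} (h : HasSym Z 0) : Z = 0 := by
  apply LinearMap.ext
  intro x
  have h1 := h x
  rw [Op_zero, LinearMap.zero_apply] at h1
  have h2 : Finsupp.mapDomain emb (Z x) = Finsupp.mapDomain emb 0 := by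
    rw [h1, Finsupp.mapDomain_zero]
  rw [Finsupp.mapDomain_injective emb_injective h2, LinearMap.zero_apply]

/-- The shifts of an operator in the variables `s_j` are bounded below by the degree. -/
lemma HasSym.lower [CharZero F] {Z : Module.End F (PolySp F m)} {q : Sy F (Option (Fin m))}
    (h : HasSym Z q) (γ : Option (Fin m) → ℤ) (hγ : q γ ≠ 0) (j : Fin m) :
    -((q γ).totalDegree : ℤ) ≤ γ (some j) := by
  by_contra hcon
  push Not at hcon
  apply hγ
  apply eq_zero_of_box
  intro ν hν
  rw [hasSym_iff] at h
  rw [← Op_single_apply, ← h, Finsupp.mapDomain_of_notMem_range]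
  rintro ⟨μ, hμ⟩
  have h1 := congrFun hμ (some j)
  simp only [emb_some, Pi.add_apply] at h1
  have h2 := (hν (some j)).2
  simp only [emb_some] at h2
  omega

end

end Pool.Agent.N88.WV
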