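import Pool.Agent.N88.WV.Prim

/-!
# The map to differential operators on the two-dimensional torus
-/

set_option autoImplicit false

namespace Pool.Agent.N88.WV

noncomputable section

variable (F : Type) [Field F]

/-- The operator of `e_n` on `F[t_1^{±1}, t_2^{±1}]`. -/
def eopF (n : ℤ) : Module.End F ((ℤ × ℤ) →₀ F) :=
  Finsupp.linearCombination F (fun p : ℤ × ℤ =>
    Finsupp.single (p.1 + n, p.2) ((p.1 : F) + 2 * n) + Finsupp.single (p.1, p.2 + n) (p.2 : F))

lemma coe_eopF (n : ℤ) (x : (ℤ × ℤ) →₀ F) : ⇑(eopF F n x) = eop F n ⇑x := by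
  classical
  induction x using Finsupp.induction_linear with
  | zero => rw [map_zero, Finsupp.coe_zero, map_zero]
  | add x y hx hy => rw [map_add, Finsupp.coe_add, hx, hy, Finsupp.coe_add, map_add]
  | single p c =>
    funext q
    rw [eop_apply, eopF, Finsupp.linearCombination_single, Finsupp.smul_apply,
      Finsupp.add_apply, Finsupp.single_apply, Finsupp.single_apply, Finsupp.single_apply,
      Finsupp.single_apply, smul_eq_mul]
    have h1 : (p.1 + n, p.2) = q ↔ p = (q.1 - n, q.2) := by
      constructor
      · rintro rfl; simp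
      · intro h; rw [h]; simp
    have h2 : (p.1, p.2 + n) = q ↔ p = (q.1, q.2 - n) := by
      constructor
      · rintro rfl; simp
      · intro h; rw [h]; simp
    simp only [h1, h2]
    have e1 : (if p = (q.1 - n, q.2) then (p.1 : F) + 2 * n else 0) =
        ((q.1 : F) + n) * (if p = (q.1 - n, q.2) then 1 else 0) := by
      split_ifs with h
      · rw [h]; push_cast; ring
      · ring
    have e2 : (if p = (q.1, q.2 - n) then (p.2 : F) else 0) =
        ((q.2 : F) - n) * (if p = (q.1, q.2 - n) then 1 else 0) := by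
      split_ifs with h
      · rw [h]; push_cast; ring
      · ring
    have e3 : (if p = (q.1 - n, q.2) then c else 0) = c * (if p = (q.1 - n, q.2) then 1 else 0) := by
      split_ifs <;> ring
    have e4 : (if p = (q.1, q.2 - n) then c else 0) = c * (if p = (q.1, q.2 - n) then 1 else 0) := by
      split_ifs <;> ring
    rw [e1, e2, e3, e4]
    ring

lemma eopF_comm (m n : ℤ) :
    eopF F m * eopF F n - eopF F n * eopF F m = ((n - m : ℤ) : F) • eopF F (m + n) := by
  apply LinearMap.ext
  intro x
  apply DFunLike.coe_injective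
  have h := congrArg (fun T : Module.End F (ℤ × ℤ → F) => T ⇑x) (eop_comm F m n)
  simp only [LinearMap.sub_apply, Module.End.mul_apply, LinearMap.smul_apply] at h ⊢
  rw [Finsupp.coe_sub, coe_eopF, coe_eopF, coe_eopF, coe_eopF, Finsupp.coe_smul, coe_eopF]
  exact h

lemma torMul_mul (i j i' j' : ℤ) : torMul F i j * torMul F i' j' = torMul F (i' + i) (j' + j) := by
  apply Finsupp.lhom_ext'
  intro p
  apply LinearMap.ext_ring
  simp [torMul, add_assoc]

lemma torMul_zero : torMul F 0 0 = 1 := by
  apply Finsupp.lhom_ext'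
  intro p
  apply LinearMap.ext_ring
  simp [torMul]

lemma torMul_mem (i j : ℤ) : torMul F i j ∈ DTorus F := by
  have hx : ∀ i : ℤ, torMul F i 0 ∈ DTorus F := by
    intro i
    induction i using Int.induction_on with
    | zero => rw [torMul_zero]; exact Subalgebra.one_mem _
    | succ n ih =>
      have h := Subalgebra.mul_mem _ ih (Algebra.subset_adjoin (by simp) : torMul F 1 0 ∈ DTorus F)
      rw [torMul_mul] at h
      rwa [add_comm (1 : ℤ), add_zero] at h
    | pred n ih =>
      have h := Subalgebra.mul_mem _ ih (Algebra.subset_adjoin (by simp) :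
        torMul F (-1) 0 ∈ DTorus F)
      rw [torMul_mul] at h
      rwa [add_comm (-1 : ℤ), add_zero] at h
  have hy : ∀ i : ℤ, torMul F 0 i ∈ DTorus F := by
    intro i
    induction i using Int.induction_on with
    | zero => rw [torMul_zero]; exact Subalgebra.one_mem _
    | succ n ih =>
      have h := Subalgebra.mul_mem _ ih (Algebra.subset_adjoin (by simp) : torMul F 0 1 ∈ DTorus F)
      rw [torMul_mul] at h
      rwa [add_comm (1 : ℤ), add_zero] at h
    | pred n ih =>
      have h := Subalgebra.mul_mem _ ih (Algebra.subset_adjoin (by simp) :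
        torMul F 0 (-1) ∈ DTorus F)
      rw [torMul_mul] at h
      rwa [add_comm (-1 : ℤ), add_zero] at h
  have h := Subalgebra.mul_mem _ (hx i) (hy j)
  rwa [torMul_mul, zero_add, add_zero] at h

lemma eopF_mem (n : ℤ) : eopF F n ∈ DTorus F := by
  have h1 : torD1 F ∈ DTorus F := Algebra.subset_adjoin (by simp)
  have h2 : torD2 F ∈ DTorus F := Algebra.subset_adjoin (by simp)
  have h3 : eopF F n = torMul F (n + 1) 0 * torD1 F + (2 * n : F) • torMul F n 0 +
      torMul F 0 (n + 1) * torD2 F := by
    apply Finsupp.lhom_ext'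
    intro p
    apply LinearMap.ext_ring
    simp only [LinearMap.comp_apply, Finsupp.lsingle_apply, LinearMap.add_apply,
      Module.End.mul_apply, LinearMap.smul_apply, eopF, torMul, torD1, torD2,
      Finsupp.linearCombination_single, one_smul, Finsupp.smul_single, smul_eq_mul, mul_one,
      Finsupp.single_add]
    have e1 : p.1 - 1 + (n + 1) = p.1 + n := by ring
    have e2 : p.2 - 1 + (n + 1) = p.2 + n := by ring
    rw [e1, e2, add_zero, add_zero]
  rw [h3]
  exact Subalgebra.add_mem _ (Subalgebra.add_mem _ (Subalgebra.mul_mem _ (torMul_mem F _ _) h1)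
    (Subalgebra.smul_mem _ (torMul_mem F _ _) _)) (Subalgebra.mul_mem _ (torMul_mem F _ _) h2)

variable {F}

/-- The two representations of the enveloping algebra and the comparison of their kernels. -/
theorem exists_reps {L : Type} [LieRing L] [LieAlgebra F L] (hL : IsWitt F L ∨ IsVirasoro F L) :
    ∃ (ψ : UniversalEnvelopingAlgebra F L →ₐ[F] Module.End F (ℤ × ℤ → F))
      (χ : UniversalEnvelopingAlgebra F L →ₐ[F] DTorus F),
      (∀ n, ∃ x, ψ x = eop F n) ∧ (∀ u, ψ u ∈ Algebra.adjoin F (Set.range (eop F))) ∧
      ∀ u, ψ u = 0 ↔ χ u = 0 := by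
  obtain ⟨g, hg, hrep⟩ := exists_gens hL
  obtain ⟨ψ, hψ, hψ0⟩ := hrep (ℤ × ℤ → F) (eop F) (eop_comm F)
  obtain ⟨χ, hχ, hχ0⟩ := hrep ((ℤ × ℤ) →₀ F) (eopF F) (eopF_comm F)
  have hmem : ∀ u, ψ u ∈ Algebra.adjoin F (Set.range (eop F)) := by
    intro u
    have hu : u ∈ Algebra.adjoin F (Set.range g) := by rw [hg]; trivial
    induction hu using Algebra.adjoin_induction with
    | mem x hx =>
      obtain ⟨i, rfl⟩ := hx
      cases i with
      | none => rw [hψ0]; exact Subalgebra.zero_mem _
      | some n => rw [hψ]; exact Algebra.subset_adjoin ⟨n, rfl⟩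
    | algebraMap c => rw [AlgHom.commutes]; exact Subalgebra.algebraMap_mem _ c
    | add x y _ _ hx hy => rw [map_add]; exact Subalgebra.add_mem _ hx hy
    | mul x y _ _ hx hy => rw [map_mul]; exact Subalgebra.mul_mem _ hx hy
  have hmem' : ∀ u, χ u ∈ DTorus F := by
    intro u
    have hu : u ∈ Algebra.adjoin F (Set.range g) := by rw [hg]; trivial
    induction hu using Algebra.adjoin_induction with
    | mem x hx =>
      obtain ⟨i, rfl⟩ := hx
      cases i with
      | none => rw [hχ0]; exact Subalgebra.zero_mem _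
      | some n => rw [hχ]; exact eopF_mem F n
    | algebraMap c => rw [AlgHom.commutes]; exact Subalgebra.algebraMap_mem _ c
    | add x y _ _ hx hy => rw [map_add]; exact Subalgebra.add_mem _ hx hy
    | mul x y _ _ hx hy => rw [map_mul]; exact Subalgebra.mul_mem _ hx hy
  have hcomp : ∀ u, ∀ x : (ℤ × ℤ) →₀ F, ⇑(χ u x) = ψ u ⇑x := by
    intro u
    have hu : u ∈ Algebra.adjoin F (Set.range g) := by rw [hg]; trivial
    induction hu using Algebra.adjoin_induction with
    | mem x hx =>
      obtain ⟨i, rfl⟩ := hx
      cases i with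
      | none => intro y; rw [hχ0, hψ0]; rfl
      | some n => intro y; rw [hχ, hψ]; exact coe_eopF F n y
    | algebraMap c =>
      intro y
      rw [AlgHom.commutes, AlgHom.commutes, Module.algebraMap_end_apply,
        Module.algebraMap_end_apply, Finsupp.coe_smul]
    | add x y _ _ hx hy =>
      intro z
      rw [map_add, map_add, LinearMap.add_apply, LinearMap.add_apply, Finsupp.coe_add, hx, hy]
    | mul x y _ _ hx hy =>
      intro z
      rw [map_mul, map_mul, Module.End.mul_apply, Module.End.mul_apply, hx, hy]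
  refine ⟨ψ, χ.codRestrict (DTorus F) hmem', fun n => ⟨g (some n), hψ n⟩, hmem, ?_⟩
  intro u
  constructor
  · intro h
    apply Subtype.ext
    change χ u = 0
    apply LinearMap.ext
    intro x
    apply DFunLike.coe_injective
    rw [hcomp, h]
    rfl
  · intro h
    have h' : χ u = 0 := congrArg Subtype.val h
    apply LinearMap.ext
    intro f
    funext p
    obtain ⟨S, hS⟩ := local_of_mem (hmem u) p
    classical
    let x : (ℤ × ℤ) →₀ F := Finsupp.onFinset S (fun s => if s ∈ S then f s else 0) (by
      intro s hs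
      by_contra hcon
      rw [if_neg hcon] at hs
      exact hs rfl)
    have h1 := hS (f - ⇑x) (fun s hs => by
      rw [Pi.sub_apply, Finsupp.onFinset_apply, if_pos hs, sub_self])
    rw [map_sub, ← hcomp, h'] at h1
    simpa using h1

end

end Pool.Agent.N88.WV
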